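import Pool.Agent.W279.TriR.Glob

/-!
# Good fibres, with the direction and the growth of the heights (helper279)
-/

set_option autoImplicit false

namespace Pool.Agent.W279.TriS

open Pool.Agent.W279.Tri Pool.Agent.W279.TriR Height

variable {K : Type*} [Field K]

/-- growth of the heights along an orbit -/
lemma growth [AdmissibleAbsValues K] {g : Fin 3 → Fin 3 → K} {δ : ℝ} (hδ : 0 < δ)
    (hh1 : ∀ u u' v : Fin 2 → K, u ≠ 0 → u' ≠ 0 → v ≠ 0 → (∀ j, lf g v j = pr u u' j) →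
      2 * logHeight v + δ ≤ logHeight u + logHeight u')
    (hh2 : ∀ v v' u : Fin 2 → K, v ≠ 0 → v' ≠ 0 → u ≠ 0 →
      (∀ j, lf (fun j k => g k j) u j = pr v v' j) →
      2 * logHeight u + δ ≤ logHeight v + logHeight v')
    {U V : ℕ → Fin 2 → K} (h : Orb g U V) (h0 : logHeight (U 0) ≤ logHeight (V 0)) (n : ℕ) :
    logHeight (U n) ≤ logHeight (V n) ∧ logHeight (U n) + δ ≤ logHeight (U (n + 1)) ∧
      logHeight (V n) + δ ≤ logHeight (V (n + 1)) := by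
  induction n with
  | zero =>
    have a1 := hh1 _ _ _ (h.hU 0) (h.hU 1) (h.hV 0) (h.hu 0)
    have a2 := hh2 _ _ _ (h.hV 0) (h.hV 1) (h.hU 1) (h.hv 0)
    refine ⟨h0, ?_, ?_⟩
    · rw [zero_add]; linarith
    · rw [zero_add]; linarith
  | succ n ih =>
    have a1 := hh1 _ _ _ (h.hU n) (h.hU (n + 1)) (h.hV n) (h.hu n)
    have a2 := hh2 _ _ _ (h.hV n) (h.hV (n + 1)) (h.hU (n + 1)) (h.hv n)
    have b1 := hh1 _ _ _ (h.hU (n + 1)) (h.hU (n + 2)) (h.hV (n + 1)) (h.hu (n + 1))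
    have b2 := hh2 _ _ _ (h.hV (n + 1)) (h.hV (n + 2)) (h.hU (n + 2)) (h.hv (n + 1))
    obtain ⟨i1, i2, i3⟩ := ih
    refine ⟨?_, ?_, ?_⟩
    · linarith
    · change _ ≤ logHeight (U (n + 2)); linarith
    · change _ ≤ logHeight (V (n + 2)); linarith

/-- the orbit with growing heights in the second variable -/
structure OrbH [AdmissibleAbsValues K] (g : Fin 3 → Fin 3 → K) (U V : ℕ → Fin 2 → K) : Prop where
  orb : Orb2 g U V
  mono : ∀ n, logHeight (V n) ≤ logHeight (V (n + 1))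
  unb : ∀ B : ℝ, ∃ N, ∀ n, N ≤ n → B ≤ logHeight (V n)
  dir : logHeight (U 0) ≤ logHeight (V 0) → Orb g U V

lemma unb_of_growth {f : ℕ → ℝ} {δ : ℝ} (hδ : 0 < δ) (h : ∀ n, f n + δ ≤ f (n + 1)) (B : ℝ) :
    ∃ N, ∀ n, N ≤ n → B ≤ f n := by
  have h1 : ∀ n : ℕ, f 0 + n * δ ≤ f n := by
    intro n
    induction n with
    | zero => simp
    | succ n ih =>
      have := h n
      push_cast
      linarith
  obtain ⟨N, hN⟩ := exists_nat_gt ((B - f 0) / δ)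
  refine ⟨N, fun n hn => ?_⟩
  rw [div_lt_iff₀ hδ] at hN
  have h2 : (N : ℝ) * δ ≤ n * δ := by
    apply mul_le_mul_of_nonneg_right _ hδ.le
    exact_mod_cast hn
  have := h1 n
  linarith

/-- orbits on the fibres of large height -/
theorem exists_orbH [AdmissibleAbsValues K] (c : Fin 3 → Fin 3 → Fin 3 → K)
    (h1 : NC (sw c)) (h2 : NC (rot c)) :
    ∃ C₀ : ℝ, ∀ x : Fin 2 → K, x ≠ 0 → C₀ < logHeight x → ∀ y z : Fin 2 → K, y ≠ 0 → z ≠ 0 →
      E c x y z = 0 → ∃ U V : ℕ → Fin 2 → K, OrbH (fib c x) U V ∧ U 0 = y ∧ V 0 = z := by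
  obtain ⟨C₁, hC₁⟩ := height_roots (sw c) h1
  obtain ⟨C₂, hC₂⟩ := height_roots (rot c) h2
  refine ⟨max C₁ C₂ / 2, fun x hx hxC y z hy hz h0 => ?_⟩
  have hδ : 0 < 2 * logHeight x - max C₁ C₂ := by linarith
  have b1 := le_max_left C₁ C₂
  have b2 := le_max_right C₁ C₂
  have k1 : ∀ v : Fin 2 → K, v ≠ 0 → ∃ j, lf (fib c x) v j ≠ 0 := by
    intro v hv
    obtain ⟨j, hj⟩ := h1.coef_ne hx hv
    exact ⟨j, by rwa [lf_fib]⟩
  have k2 : ∀ u : Fin 2 → K, u ≠ 0 → ∃ j, lf (fun j k => fib c x k j) u j ≠ 0 := by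
    intro v hv
    obtain ⟨j, hj⟩ := h2.coef_ne hx hv
    exact ⟨j, by rwa [lf_fib']⟩
  have k3 : ∀ u u' v : Fin 2 → K, u ≠ 0 → u' ≠ 0 → v ≠ 0 →
      (∀ j, lf (fib c x) v j = pr u u' j) →
      2 * logHeight v + (2 * logHeight x - max C₁ C₂) ≤ logHeight u + logHeight u' := by
    intro u u' v hu hu' hv h
    have := hC₁ u u' x v hu hu' hx hv ⟨by rw [← lf_fib, h]; rfl, by rw [← lf_fib, h]; rfl,
      by rw [← lf_fib, h]; rfl⟩
    linarith
  have k4 : ∀ v v' u : Fin 2 → K, v ≠ 0 → v' ≠ 0 → u ≠ 0 →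
      (∀ j, lf (fun j k => fib c x k j) u j = pr v v' j) →
      2 * logHeight u + (2 * logHeight x - max C₁ C₂) ≤ logHeight v + logHeight v' := by
    intro u u' v hu hu' hv h
    have := hC₂ u u' x v hu hu' hx hv ⟨by rw [← lf_fib', h]; rfl, by rw [← lf_fib', h]; rfl,
      by rw [← lf_fib', h]; rfl⟩
    linarith
  rcases le_or_gt (logHeight y) (logHeight z) with hyz | hyz
  · obtain ⟨U, V, hO, hU, hV⟩ := exists_orb hδ k1 k2 k3 k4 hy hz (by rw [G_fib]; exact h0) hyz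
    have hg := fun n => growth hδ k3 k4 hO (by rw [hU, hV]; exact hyz) n
    refine ⟨U, V, ⟨Or.inl hO, fun n => ?_, unb_of_growth hδ fun n => (hg n).2.2, fun _ => hO⟩,
      hU, hV⟩
    have := (hg n).2.2
    linarith
  · obtain ⟨U, V, hO, hU, hV⟩ := exists_orb (g := fun j k => fib c x k j) hδ k2 k1 k4 k3 hz hy
      (by rw [← G_swap, G_fib]; exact h0) hyz.le
    have hg := fun n => growth (g := fun j k => fib c x k j) hδ k4 k3 hO
      (by rw [hU, hV]; exact hyz.le) n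
    refine ⟨V, U, ⟨Or.inr hO, fun n => ?_, unb_of_growth hδ fun n => (hg n).2.1, fun hle => ?_⟩,
      hV, hU⟩
    · have := (hg n).2.1
      linarith
    · rw [hU, hV] at hle
      linarith

/-- good classes -/
def GoodH [AdmissibleAbsValues K] (c : Fin 3 → Fin 3 → Fin 3 → K) (x : Fin 2 → K) : Prop :=
  NS (fib c x) ∧ ∀ y z : Fin 2 → K, y ≠ 0 → z ≠ 0 → E c x y z = 0 →
    ∃ U V : ℕ → Fin 2 → K, OrbH (fib c x) U V ∧ U 0 = y ∧ V 0 = z

/-- bad classes -/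
def BadH [AdmissibleAbsValues K] (c : Fin 3 → Fin 3 → Fin 3 → K) : Set (Fin 2 → K) :=
  insert ![1, 0] ((fun t => ![t, 1]) '' {t : K | ¬GoodH c ![t, 1]})

lemma goodH_of_not_bad [AdmissibleAbsValues K] {c : Fin 3 → Fin 3 → Fin 3 → K} {v : Fin 2 → K}
    (h : nrm v ∉ BadH c) : GoodH c (nrm v) := by
  classical
  by_cases hv : v 1 = 0
  · have e : nrm v = ![1, 0] := by simp [nrm, hv]
    rw [e] at h
    exact absurd (Set.mem_insert _ _) h
  · have e : nrm v = ![v 0 / v 1, 1] := by simp [nrm, hv]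
    rw [e] at h ⊢
    by_contra hg
    exact h (Set.mem_insert_of_mem _ ⟨_, hg, rfl⟩)

lemma BadH.ne_zero [AdmissibleAbsValues K] {c : Fin 3 → Fin 3 → Fin 3 → K} {v : Fin 2 → K}
    (h : v ∈ BadH c) : v ≠ 0 := by
  rcases h with rfl | ⟨t, -, rfl⟩
  · intro h0
    have := congrFun h0 0
    simp at this
  · intro h0
    have := congrFun h0 1
    simp at this

/-- finiteness of the bad classes -/
theorem finite_badH [NumberField K] (c : Fin 3 → Fin 3 → Fin 3 → K) (h1 : NC (sw c))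
    (h2 : NC (rot c)) {S : Set (Fin 2 → AlgebraicClosure K)} (hS : S.Finite)
    (hS0 : ∀ s ∈ S, s ≠ 0)
    (h : ∀ x y z : Fin 2 → AlgebraicClosure K, x ≠ 0 → y ≠ 0 → z ≠ 0 →
      SingX (fun i j k => algebraMap K (AlgebraicClosure K) (c i j k)) x y z →
        ∃ s ∈ S, br x s = 0) :
    {t : K | ¬GoodH c ![t, 1]}.Finite := by
  obtain ⟨C₀, hC₀⟩ := exists_orbH c h1 h2
  have : CharZero (AlgebraicClosure K) :=
    charZero_of_injective_algebraMap (algebraMap K (AlgebraicClosure K)).injective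
  obtain ⟨M, hM, hbad⟩ := exists_bad hS hS0 h
  have f1 : {t : K | logHeight₁ t ≤ C₀}.Finite := NumberField.finite_setOfPred_logHeight₁_le K C₀
  have f2 : {t : K | M.eval (algebraMap K (AlgebraicClosure K) t) = 0}.Finite := by
    have h3 : (M.rootSet (AlgebraicClosure K)).Finite := M.rootSet_finite _
    have h4 : {t : AlgebraicClosure K | M.eval t = 0}.Finite := by
      refine h3.subset fun t ht => ?_
      rw [Polynomial.mem_rootSet]
      exact ⟨hM, by simpa using ht⟩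
    exact h4.preimage (algebraMap K (AlgebraicClosure K)).injective.injOn
  refine (f1.union f2).subset fun t ht => ?_
  by_contra hn
  simp only [Set.mem_union, Set.mem_ofPred_eq, not_or, not_le] at hn
  apply ht
  have hne : (![t, 1] : Fin 2 → K) ≠ 0 := fun h0 => by
    have := congrFun h0 1
    simp at this
  refine ⟨?_, fun y z hy hz h0 => hC₀ _ hne ?_ y z hy hz h0⟩
  · intro u v hu hv hs
    rw [fib_map', vec_map] at hs
    exact hbad _ hn.2 u v hu hv hs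
  · rw [← logHeight₁_eq_logHeight]
    exact hn.1

section finite

variable [NumberField K]

lemma badH0 {c : Fin 3 → Fin 3 → Fin 3 → K} (h : Nice c) : (BadH c).Finite := by
  obtain ⟨S, hSf, hS⟩ := h.s
  have hb : ∀ (x s : Fin 2 → AlgebraicClosure K) (t : AlgebraicClosure K), x ≠ 0 → x = t • s →
      s ≠ 0 ∧ br x s = 0 := by
    intro x s t hx hxs
    refine ⟨fun h => hx ?_, ?_⟩
    · rw [hxs, h, smul_zero]
    · rw [hxs, br_smul_left, br_self, mul_zero]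
  have hb0 : {t : K | ¬GoodH c ![t, 1]}.Finite := by
    refine finite_badH c h.n1 h.n2 (S := {v | v ≠ 0 ∧ ∃ s ∈ S, v = s 0}) ?_ (fun s hs => hs.1) ?_
    · exact (hSf.image fun s => s 0).subset (by rintro v ⟨-, s, hs, rfl⟩; exact ⟨s, hs, rfl⟩)
    · intro x y z hx hy hz h
      obtain ⟨s, hs, h1⟩ := hS x y z hx hy hz h
      obtain ⟨t, ht⟩ := h1 0
      obtain ⟨k1, k2⟩ := hb x (s 0) t hx ht
      exact ⟨s 0, ⟨k1, s, hs, rfl⟩, k2⟩
  exact (hb0.image _).insert _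

lemma badH1 {c : Fin 3 → Fin 3 → Fin 3 → K} (h : Nice c) : (BadH (sw c)).Finite := by
  obtain ⟨S, hSf, hS⟩ := h.s
  have hb : ∀ (x s : Fin 2 → AlgebraicClosure K) (t : AlgebraicClosure K), x ≠ 0 → x = t • s →
      s ≠ 0 ∧ br x s = 0 := by
    intro x s t hx hxs
    refine ⟨fun h => hx ?_, ?_⟩
    · rw [hxs, h, smul_zero]
    · rw [hxs, br_smul_left, br_self, mul_zero]
  have hb1 : {t : K | ¬GoodH (sw c) ![t, 1]}.Finite := by
    refine finite_badH (sw c) h.n0 (NC_rot_sw h.n2) (S := {v | v ≠ 0 ∧ ∃ s ∈ S, v = s 1}) ?_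
      (fun s hs => hs.1) ?_
    · exact (hSf.image fun s => s 1).subset (by rintro v ⟨-, s, hs, rfl⟩; exact ⟨s, hs, rfl⟩)
    · intro y x z hy hx hz h
      obtain ⟨s, hs, h1⟩ := hS x y z hx hy hz (SingX_sw h)
      obtain ⟨t, ht⟩ := h1 1
      obtain ⟨k1, k2⟩ := hb y (s 1) t hy ht
      exact ⟨s 1, ⟨k1, s, hs, rfl⟩, k2⟩
  exact (hb1.image _).insert _

/-- the exceptional points -/
theorem exists_TH {c : Fin 3 → Fin 3 → Fin 3 → K} (h2 : NC (rot c)) (hb0 : (BadH c).Finite)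
    (hb1 : (BadH (sw c)).Finite) :
    ∃ T : Set (Fin 3 → Fin 2 → K), T.Finite ∧
      (∀ P ∈ T, (∀ i, P i ≠ 0) ∧ E c (P 0) (P 1) (P 2) = 0) ∧
      ∀ Q : Fin 3 → Fin 2 → K, (∀ i, Q i ≠ 0) → E c (Q 0) (Q 1) (Q 2) = 0 →
        nrm (Q 0) ∈ BadH c → nrm (Q 1) ∈ BadH (sw c) → ∃ P ∈ T, Eqv Q P := by
  classical
  choose! Z hZ1 hZ2 hZ3 using fun (a : Fin 2 → K) (b : Fin 2 → K) (ha : a ≠ 0) (hb : b ≠ 0) =>
    exists_roots h2 ha hb
  refine ⟨⋃ a ∈ BadH c, ⋃ b ∈ BadH (sw c), (fun z => ![a, b, z]) '' (Z a b), ?_, ?_, ?_⟩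
  · refine hb0.biUnion fun a ha => hb1.biUnion fun b hb => ?_
    exact (hZ1 a b (BadH.ne_zero ha) (BadH.ne_zero hb)).image _
  · intro P hP
    simp only [Set.mem_iUnion, Set.mem_image] at hP
    obtain ⟨a, ha, b, hb, z, hz, rfl⟩ := hP
    have ha0 := BadH.ne_zero ha
    have hb0 := BadH.ne_zero hb
    obtain ⟨hz0, hE⟩ := hZ2 a b ha0 hb0 z hz
    refine ⟨fun i => ?_, hE⟩
    fin_cases i
    · exact ha0
    · exact hb0
    · exact hz0
  · intro Q hQ hE h0 h1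
    obtain ⟨s, hs0, hs⟩ := nrm_spec (hQ 0)
    obtain ⟨t, ht0, ht⟩ := nrm_spec (hQ 1)
    have hE' : E c (nrm (Q 0)) (nrm (Q 1)) (Q 2) = 0 := by
      have e : E c (Q 0) (Q 1) (Q 2) = s ^ 2 * t ^ 2 * 1 ^ 2 *
          E c (nrm (Q 0)) (nrm (Q 1)) (Q 2) := by
        conv_lhs => rw [hs, ht, ← one_smul K (Q 2)]
        rw [E_smul]
      rw [e] at hE
      have : s ^ 2 * t ^ 2 * 1 ^ 2 ≠ 0 := mul_ne_zero (mul_ne_zero (pow_ne_zero 2 hs0)
        (pow_ne_zero 2 ht0)) (pow_ne_zero 2 one_ne_zero)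
      exact (mul_eq_zero.1 hE).resolve_left this
    obtain ⟨z, hz, w, hw0, hw⟩ := hZ3 _ _ (BadH.ne_zero h0) (BadH.ne_zero h1) (Q 2) (hQ 2) hE'
    refine ⟨![nrm (Q 0), nrm (Q 1), z], ?_, ?_⟩
    · simp only [Set.mem_iUnion, Set.mem_image]
      exact ⟨_, h0, _, h1, z, hz, rfl⟩
    · intro i
      fin_cases i
      · exact ⟨s, hs0, hs⟩
      · exact ⟨t, ht0, ht⟩
      · exact ⟨w, hw0, hw⟩

end finite

end Pool.Agent.W279.TriS
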