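import Pool.Agent.W279.TriS.Defs
import Pool.Agent.W279.TriS.GoodH

/-!
# Basic facts on orbits over several completions (helper279)
-/

set_option autoImplicit false

namespace Pool.Agent.W279.TriS

open Pool.Agent.W279.Tri Filter Topology

section ring

variable {R : Type*} [CommRing R]

lemma G_smul_form (l : R) (g : Fin 3 → Fin 3 → R) (u v : Fin 2 → R) :
    G (l • g) u v = l * G g u v := by
  simp only [G, Pi.smul_apply, smul_eq_mul, Finset.mul_sum]
  refine Finset.sum_congr rfl fun j _ => Finset.sum_congr rfl fun k _ => ?_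
  ring

lemma fib_smul (t : R) (c : Fin 3 → Fin 3 → Fin 3 → R) (x : Fin 2 → R) :
    fib c (t • x) = t ^ 2 • fib c x := by
  funext j k
  simp only [fib, mon_smul, Pi.smul_apply, smul_eq_mul, Finset.mul_sum]
  refine Finset.sum_congr rfl fun i _ => ?_
  ring

lemma fib_map2 {S : Type*} [CommRing S] (φ : R →+* S) (c : Fin 3 → Fin 3 → Fin 3 → R)
    (x : Fin 2 → R) :
    (fun j k => φ (fib c x j k)) = fib (fun i j k => φ (c i j k)) (fun a => φ (x a)) :=
  fib_map' φ c x

lemma pr_comm (u u' : Fin 2 → R) (j : Fin 3) : pr u u' j = pr u' u j := by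
  fin_cases j <;> simp [pr] <;> ring

lemma Step.reverse {g : Fin 3 → Fin 3 → R} {a b a' b' : Fin 2 → R} (h : Step g a b a' b') :
    Step (fun j k => g k j) b' a' b a :=
  ⟨fun k => by rw [h.2 k, pr_comm], fun j => by rw [pr_comm]; exact h.1 j⟩

lemma Step.map {S : Type*} [CommRing S] (φ : R →+* S) {g : Fin 3 → Fin 3 → R}
    {a b a' b' : Fin 2 → R} (h : Step g a b a' b') :
    Step (fun j k => φ (g j k)) (fun i => φ (a i)) (fun i => φ (b i)) (fun i => φ (a' i))
      (fun i => φ (b' i)) := by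
  refine ⟨fun j => ?_, fun k => ?_⟩
  · rw [lf_map, pr_map, h.1 j]
  · rw [lf_map φ (fun j k => g k j), pr_map, h.2 k]

lemma Step.G_eq {g : Fin 3 → Fin 3 → R} {a b a' b' : Fin 2 → R} (h : Step g a b a' b') :
    G g a b = 0 ∧ G g a' b' = 0 := by
  constructor
  · rw [G_of_pr h.1, br_self, zero_mul]
  · rw [G_swap, G_of_pr h.2, br_self, mul_zero]

end ring

section one

variable {K : Type*} [Field K] {L : Type} [NontriviallyNormedField L]

lemma Rr_smul_form {l : L} (g : Fin 3 → Fin 3 → L) (u v u' v' : Fin 2 → L) :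
    Rr (l • g) u v u' v' = l ^ 2 * Rr g u v u' v' := by
  unfold Rr
  rw [G_smul_form, G_smul_form]
  ring

lemma OL.of_smul {g : Fin 3 → Fin 3 → L} {u v : ℕ → Fin 2 → L} {l : L} (hl : l ≠ 0)
    (h : OL (l • g) u v) : OL g u v where
  hu0 := h.hu0
  hv0 := h.hv0
  G0 n := by
    have := h.G0 n
    rw [G_smul_form] at this
    exact (mul_eq_zero.1 this).resolve_left hl
  hdu := h.hdu
  hdv := h.hdv
  inv n m hm := by
    have := h.inv n m hm
    rw [Rr_smul_form, Rr_smul_form] at this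
    exact mul_left_cancel₀ (pow_ne_zero 2 hl) this

lemma OL.transpose {g : Fin 3 → Fin 3 → L} {u v : ℕ → Fin 2 → L} (h : OL g u v) :
    OL (fun j k => g k j) v u where
  hu0 := h.hv0
  hv0 := h.hu0
  G0 n := by rw [← G_swap]; exact h.G0 n
  hdu := h.hdv
  hdv := h.hdu
  inv n m hm := by
    rw [Rr_transpose g (u n), Rr_transpose g (u 0)]
    exact h.inv n m hm

lemma OL.of_orb {g : Fin 3 → Fin 3 → K} {U V : ℕ → Fin 2 → K} (h : Orb g U V) (σ : K →+* L) :
    OL (fun j k => σ (g j k)) (fun n a => σ (U n a)) (fun n a => σ (V n a)) where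
  hu0 n := map_ne σ (h.hU n)
  hv0 n := map_ne σ (h.hV n)
  G0 n := by rw [G_map, h.G_eq_zero, map_zero]
  hdu n m hnm := by
    rw [br_map]
    exact (map_ne_zero σ).2 (h.hdu n m hnm)
  hdv n m hnm := by
    rw [br_map]
    exact (map_ne_zero σ).2 (h.hdv n m hnm)
  inv n m hm := by
    refine Rr_shift (u := fun n a => σ (U n a)) (v := fun n a => σ (V n a)) ?_ ?_ ?_ ?_ n hm
    · intro n w
      refine G_of_pr (fun j => ?_) w
      rw [lf_map, pr_map, h.hu n j]
    · intro n w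
      rw [G_swap]
      refine G_of_pr (fun j => ?_) w
      rw [lf_map σ (fun j k => g k j), pr_map, h.hv n j]
    · intro n m hnm
      rw [br_map]
      exact (map_ne_zero σ).2 (h.hdu n m hnm)
    · intro n m hnm
      rw [br_map]
      exact (map_ne_zero σ).2 (h.hdv n m hnm)

lemma OL.of_orb2 {g : Fin 3 → Fin 3 → K} {U V : ℕ → Fin 2 → K} (h : Orb2 g U V) (σ : K →+* L) :
    OL (fun j k => σ (g j k)) (fun n a => σ (U n a)) (fun n a => σ (V n a)) := by
  rcases h with h | h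
  · exact OL.of_orb h σ
  · exact (OL.of_orb h σ).transpose

lemma _root_.Pool.Agent.W279.Tri.Sm.smul {g : Fin 3 → Fin 3 → L} {l : L} (hl : l ≠ 0)
    (h : Sm (l • g)) : Sm g := by
  have e : ∀ (g : Fin 3 → Fin 3 → L) (u v e : Fin 2 → L), Pv (l • g) u v e = l * Pv g u v e := by
    intro g u v e
    unfold Pv
    rw [G_smul_form, G_smul_form, G_smul_form]
    ring
  intro ξ η hξ hη h0
  rcases h ξ η hξ hη (by rw [G_smul_form, h0, mul_zero]) with ⟨a, ha⟩ | ⟨a, ha⟩
  · rw [e] at ha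
    exact Or.inl ⟨a, right_ne_zero_of_mul ha⟩
  · have e2 : Pv (fun j k => (l • g) k j) η ξ a = l * Pv (fun j k => g k j) η ξ a :=
      e (fun j k => g k j) η ξ a
    rw [e2] at ha
    exact Or.inr ⟨a, right_ne_zero_of_mul ha⟩

/-- the invariant is continuous -/
lemma Rr_continuousAt {g : Fin 3 → Fin 3 → L} {u v u' v' : Fin 2 → L} (h1 : br u u' ≠ 0)
    (h2 : br v v' ≠ 0) :
    ContinuousAt (fun p : (Fin 3 → Fin 3 → L) × (Fin 2 → L) × (Fin 2 → L) × (Fin 2 → L) ×
      (Fin 2 → L) => Rr p.1 p.2.1 p.2.2.1 p.2.2.2.1 p.2.2.2.2) (g, u, v, u', v') := by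
  have hG : ∀ a b : (Fin 3 → Fin 3 → L) × (Fin 2 → L) × (Fin 2 → L) × (Fin 2 → L) ×
      (Fin 2 → L) → Fin 2 → L, Continuous a → Continuous b →
      Continuous fun p : (Fin 3 → Fin 3 → L) × (Fin 2 → L) × (Fin 2 → L) × (Fin 2 → L) ×
        (Fin 2 → L) => G p.1 (a p) (b p) := by
    intro a b ha hb
    simp only [G, mon, Fin.sum_univ_three, Matrix.cons_val_zero, Matrix.cons_val_one,
      Matrix.cons_val]
    fun_prop
  unfold Rr
  refine ContinuousAt.div ?_ ?_ ?_
  · exact ((hG _ _ (by fun_prop) (by fun_prop)).mul (hG _ _ (by fun_prop) (by fun_prop))).continuousAt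
  · simp only [br]
    fun_prop
  · exact mul_ne_zero (pow_ne_zero 2 h1) (pow_ne_zero 2 h2)

lemma exists_br_ne {F : Type*} [Field F] {a : Fin 2 → F} (ha : a ≠ 0) :
    ∃ b : Fin 2 → F, br a b ≠ 0 := by
  by_cases h : a 0 = 0
  · refine ⟨![1, 0], fun h1 => ha ?_⟩
    funext i
    fin_cases i
    · exact h
    · simpa [br] using h1
  · refine ⟨![0, 1], fun h1 => h ?_⟩
    simpa [br] using h1

lemma At.zero (ξ ξ' : Fin 2 → L) : At ξ ξ' ξ 0 := ⟨1, one_ne_zero, by simp⟩

end one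

/-- a common step at which all invariants are large -/
lemma exists_large {V : Type} [Fintype V] {L : V → Type} [∀ v, NontriviallyNormedField (L v)]
    [∀ v, ProperSpace (L v)] (hrecur : StmtRecur) (g : ∀ v, Fin 3 → Fin 3 → L v)
    (a b : ∀ v, ℕ → Fin 2 → L v) (h : ∀ v, OL (g v) (a v) (b v)) (hsm : ∀ v, Sm (g v))
    (B : V → ℝ) :
    ∃ w : ℕ, w ≠ 0 ∧ ∀ v, B v ≤ ‖Rr (g v) (a v 0) (b v 0) (a v w) (b v w)‖ := by
  classical
  have key : ∀ s : Finset V, ∃ φ : ℕ → ℕ, StrictMono φ ∧ ∀ v ∈ s, ∀ i j, i < j →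
      B v ≤ ‖Rr (g v) (a v (φ i)) (b v (φ i)) (a v (φ j)) (b v (φ j))‖ := by
    intro s
    induction s using Finset.induction_on with
    | empty => exact ⟨id, strictMono_id, by simp⟩
    | insert v s _ ih =>
      obtain ⟨φ, hφ, h1⟩ := ih
      obtain ⟨ψ, hψ, h2⟩ := hrecur (L v) (g v) (a v) (b v) (h v) (hsm v) (B v) φ hφ
      refine ⟨φ ∘ ψ, hφ.comp hψ, ?_⟩
      intro v' hv' i j hij
      rcases Finset.mem_insert.1 hv' with rfl | hv'
      · exact h2 i j hij
      · exact h1 v' hv' _ _ (hψ hij)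
  obtain ⟨φ, hφ, h1⟩ := key Finset.univ
  have h01 : φ 0 < φ 1 := hφ (by norm_num)
  obtain ⟨w, hw⟩ := Nat.exists_eq_add_of_lt h01
  refine ⟨w + 1, by omega, fun v => ?_⟩
  have h2 := h1 v (Finset.mem_univ v) 0 1 (by norm_num)
  rw [hw, add_assoc, (h v).inv (φ 0) (w + 1) (by omega)] at h2
  exact h2

/-- large sets can be shifted -/
lemma Big.shift {q : ℕ} {A : Set ℕ} (h : Big q A) (s : ℕ) : Big q {j | j + s ∈ A} := by
  unfold Big at h ⊢
  split_ifs with hq
  · rw [if_pos hq] at h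
    intro N c hN
    have hN' : 0 < N := Nat.pos_of_ne_zero hN
    obtain ⟨k, hk, hkc⟩ := h (N * (s + 1)) ((c + s) % N + N * s) (by positivity)
    have h1 : (c + s) % N < N := Nat.mod_lt _ hN'
    have h2 : (c + s) % N + N * s < N * (s + 1) := by nlinarith
    have h3 : (c + s) % N + N * s ≤ k := by
      have h4 : k % (N * (s + 1)) = (c + s) % N + N * s := by
        rw [hkc, Nat.mod_eq_of_lt h2]
      have h5 := Nat.mod_le k (N * (s + 1))
      omega
    have hs : s ≤ k := by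
      have : s ≤ N * s := Nat.le_mul_of_pos_left s hN'
      omega
    refine ⟨k - s, ?_, ?_⟩
    · change k - s + s ∈ A
      rw [Nat.sub_add_cancel hs]
      exact hk
    · have h6 : k ≡ c + s [MOD N] := by
        have h7 : k ≡ (c + s) % N + N * s [MOD N] := hkc.of_mul_right (s + 1)
        refine h7.trans ?_
        have h8 : (c + s) % N + N * s ≡ (c + s) % N + 0 [MOD N] :=
          Nat.ModEq.add_left _ (by simp [Nat.ModEq])
        exact h8.trans (by simpa using Nat.mod_modEq (c + s) N)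
      have h9 : k - s + s ≡ c + s [MOD N] := by rw [Nat.sub_add_cancel hs]; exact h6
      exact Nat.ModEq.add_right_cancel' s h9
  · rw [if_neg hq] at h
    obtain ⟨N, c, hc⟩ := h
    have hqN : 0 < q ^ N := by positivity
    refine ⟨N, c + (q ^ N - 1) * s, fun k hk => hc (k + s) ?_⟩
    have h1 : k + s ≡ c + (q ^ N - 1) * s + s [MOD q ^ N] := Nat.ModEq.add_right s hk
    refine h1.trans ?_
    have h2 : c + (q ^ N - 1) * s + s = c + q ^ N * s := by
      obtain ⟨m, hm⟩ := Nat.exists_eq_add_of_lt hqN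
      rw [hm]
      simp
      ring
    rw [h2]
    have : c + q ^ N * s ≡ c + 0 [MOD q ^ N] := Nat.ModEq.add_left _ (by simp [Nat.ModEq])
    simpa using this

lemma crt_large {V : Type} [Finite V] (hcrt : StmtCrt) {q : V → ℕ} (hq : Function.Injective q)
    (hp : ∀ v, q v = 0 ∨ (q v).Prime) {A : V → Set ℕ} (h : ∀ v, Big (q v) (A v)) (s : ℕ) :
    ∃ k, s ≤ k ∧ ∀ v, k ∈ A v := by
  obtain ⟨k, hk⟩ := hcrt V q hq hp (fun v => {j | j + s ∈ A v}) (fun v => (h v).shift s)
  exact ⟨k + s, by omega, hk⟩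

end Pool.Agent.W279.TriS
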