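import Pool.Agent.W279.Tri.Fib

/-!
# Orbits on curves of bidegree (2,2) over several completions: definitions and statements (helper279)

`mon`, `qf` (Ht), `br`, `G`, `Pv`, `Rr` (Rec), `lf`, `pr`, `Orb`, `Sm` (Orb), `fib`, `E`, `Orb2` (Fib) are
defined in the imported files of `Pool.Agent.W279.Tri`.  The files of `Pool.Agent.W279.TriR` contain the
proofs of the corresponding facts over the real numbers.
-/

set_option autoImplicit false

namespace Pool.Agent.W279.TriS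

open Pool.Agent.W279.Tri Filter Topology

section ring

variable {L : Type*} [CommRing L]

/-- the coefficients in the second variable -/
def fr (g : Fin 3 → Fin 3 → L) (u η η' : Fin 2 → L) (k : Fin 3) : L :=
  ![G g u η, Pv g u η η', G g u η'] k

/-- the polynomial of the curve in the frame -/
def fm (g : Fin 3 → Fin 3 → L) (ξ ξ' η η' : Fin 2 → L) (j k : Fin 3) : L :=
  ![fr g ξ η η' k, fr g (ξ + ξ') η η' k - fr g ξ η η' k - fr g ξ' η η' k, fr g ξ' η η' k] j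

/-- the coefficient of `s^k` -/
def co (m : Fin 3 → Fin 3 → L) (k : Fin 3) (t : L) : L := m 0 k + m 1 k * t + m 2 k * t ^ 2

/-- the polynomial -/
def ff (m : Fin 3 → Fin 3 → L) (t s : L) : L := co m 0 t + co m 1 t * s + co m 2 t * s ^ 2

/-- the difference quotient in the second variable -/
def hh (m : Fin 3 → Fin 3 → L) (t s s' : L) : L := co m 1 t + co m 2 t * (s + s')

/-- the difference quotient in the first variable -/
def kk (m : Fin 3 → Fin 3 → L) (s t t' : L) : L :=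
  (m 1 0 + m 1 1 * s + m 1 2 * s ^ 2) + (m 2 0 + m 2 1 * s + m 2 2 * s ^ 2) * (t + t')

/-- the denominator of the invariant -/
def Ph (m : Fin 3 → Fin 3 → L) (t s t' s' : L) : L := hh m t s s' * hh m t' s s'

/-- `t` is the coordinate of the class of `u` in the frame `ξ, ξ'` -/
def At (ξ ξ' u : Fin 2 → L) (t : L) : Prop := ∃ a : L, a ≠ 0 ∧ u = a • (ξ + t • ξ')

/-- the `n`-th point of the orbit has the coordinates `t, s` -/
def Near (ξ ξ' η η' : Fin 2 → L) (u v : ℕ → Fin 2 → L) (n : ℕ) (t s : L) : Prop :=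
  At ξ ξ' (u n) t ∧ At η η' (v n) s

/-- the polar form in the third variable -/
def PE (c : Fin 3 → Fin 3 → Fin 3 → L) (x y z e : Fin 2 → L) : L :=
  E c x y (z + e) - E c x y z - E c x y e

/-- one step of the translation on the curve `G g = 0`: first the other root in the first
variable, then the other root in the second variable -/
def Step (g : Fin 3 → Fin 3 → L) (a b a' b' : Fin 2 → L) : Prop :=
  (∀ j, lf g b j = pr a a' j) ∧ ∀ k, lf (fun j k => g k j) a' k = pr b b' k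

end ring

/-- an orbit over `L` -/
structure OL {L : Type*} [NontriviallyNormedField L] (g : Fin 3 → Fin 3 → L)
    (u v : ℕ → Fin 2 → L) : Prop where
  hu0 : ∀ n, u n ≠ 0
  hv0 : ∀ n, v n ≠ 0
  G0 : ∀ n, G g (u n) (v n) = 0
  hdu : ∀ n m, n ≠ m → br (u n) (u m) ≠ 0
  hdv : ∀ n m, n ≠ m → br (v n) (v m) ≠ 0
  inv : ∀ n m, m ≠ 0 → Rr g (u n) (v n) (u (n + m)) (v (n + m)) = Rr g (u 0) (v 0) (u m) (v m)

/-- large sets of indices: for a prime `q` the sets which contain a residue class modulo a power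
of `q`, for `q = 0` the sets which meet every residue class -/
def Big (q : ℕ) (A : Set ℕ) : Prop :=
  if q = 0 then ∀ N c : ℕ, N ≠ 0 → ∃ k ∈ A, k ≡ c [MOD N]
  else ∃ N c : ℕ, ∀ k, k ≡ c [MOD q ^ N] → k ∈ A

/-- **Part F, the relation**: the invariant in the frame.  Real case: `TriR.Frame.Rr_frame`. -/
def StmtRel : Prop :=
  ∀ (L : Type) [NontriviallyNormedField L] (g : Fin 3 → Fin 3 → L)
    (ξ ξ' η η' u v u' v' : Fin 2 → L) (t s t' s' : L),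
    At ξ ξ' u t → At η η' v s → At ξ ξ' u' t' → At η η' v' s' → G g u v = 0 → G g u' v' = 0 →
    br u u' ≠ 0 → br v v' ≠ 0 →
    ff (fm g ξ ξ' η η') t s = 0 ∧ t' ≠ t ∧
    Rr g u v u' v' * ((t - t') ^ 2 * (br ξ ξ' * br η η') ^ 2) = -Ph (fm g ξ ξ' η η') t s t' s'

/-- **Part F, closeness**: a large invariant forces closeness, uniformly for bounded forms.
Real case: `TriR.Frame.Rr_upper`, `TriR.Frame.coord_close`, `TriR.Two.RO.close`. -/
def StmtClose : Prop :=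
  ∀ (L : Type) [NontriviallyNormedField L] [ProperSpace L] (B : ℝ) (ξ ξ' η η' : Fin 2 → L),
    br ξ ξ' ≠ 0 → br η η' ≠ 0 → ∃ D : ℝ, 0 < D ∧
      ∀ (g : Fin 3 → Fin 3 → L), ‖g‖ ≤ B → ∀ (u v u' v' : Fin 2 → L), u ≠ 0 → v ≠ 0 → u' ≠ 0 →
        v' ≠ 0 → G g u v = 0 → G g u' v' = 0 → br u u' ≠ 0 → br v v' ≠ 0 →
        ∀ (t s : L), At ξ ξ' u t → At η η' v s → ‖t‖ ≤ 1 → ‖s‖ ≤ 1 →
        ∀ ε : ℝ, 0 < ε → ε ≤ 1 → (D / ε) ^ 2 ≤ ‖Rr g u v u' v'‖ →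
          ∃ t' s', At ξ ξ' u' t' ∧ At η η' v' s' ∧ ‖t' - t‖ ≤ ε ∧ ‖s' - s‖ ≤ ε

/-- **Part D, recurrence**: every infinite set of indices has an infinite subset such that the
invariants of all its pairs are large.  Compare `Tri.Rec.rec_big`, `Tri.Rec.rec_norm`. -/
def StmtRecur : Prop :=
  ∀ (L : Type) [NontriviallyNormedField L] [ProperSpace L] (g : Fin 3 → Fin 3 → L)
    (u v : ℕ → Fin 2 → L), OL g u v → Sm g → ∀ (B : ℝ) (φ : ℕ → ℕ), StrictMono φ →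
    ∃ ψ : ℕ → ℕ, StrictMono ψ ∧ ∀ i j, i < j →
      B ≤ ‖Rr g (u (φ (ψ i))) (v (φ (ψ i))) (u (φ (ψ j))) (v (φ (ψ j)))‖

/-- **Part P0, pure p-adic**: a sequence of p-adic numbers with almost constant differences at
all scales fills a ball, in the sense that each point is approximated along a residue class. -/
def StmtSeq : Prop :=
  ∀ (p : ℕ) [Fact p.Prime] (T : ℕ → ℚ_[p]) (κ : ℝ), 0 ≤ κ →
    (∀ w : ℕ, w ≠ 0 → ∃ ρ : ℝ, 0 < ρ ∧ ∀ i, ‖T (i + w) - T i‖ = ρ ∧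
      ‖T (i + 2 * w) - 2 * T (i + w) + T i‖ ≤ κ * ρ ^ 2) →
    κ * ‖T 1 - T 0‖ * p < 1 →
    ∀ τ : ℚ_[p], ‖τ - T 0‖ ≤ ‖T 1 - T 0‖ → ∀ ε : ℝ, 0 < ε →
      ∃ N c : ℕ, ∀ k, k ≡ c [MOD p ^ N] → ‖T k - τ‖ ≤ ε

/-- **Filling**: the property of the completion `L` of type `q` (`q = 0` for `ℝ`, `q = p` for
`ℚ_[p]`) on which everything rests.  Near a point where the derivative in the second variable is
not zero, and uniformly for the neighbouring curves, the points number `n + k w` of an orbit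
come close to every `τ` in a ball of uniform size for a large set of `k`, as soon as the
translation by `w` is close to the identity (large invariant) but not too close (invariant at
most `M`). -/
def Fill (L : Type) [NontriviallyNormedField L] (q : ℕ) : Prop :=
  ∀ (g₀ : Fin 3 → Fin 3 → L) (ξ ξ' η η' : Fin 2 → L), br ξ ξ' ≠ 0 → br η η' ≠ 0 →
    G g₀ ξ η = 0 → Pv g₀ ξ η η' ≠ 0 → ∀ δ₁ : ℝ, 0 < δ₁ →
    ∃ δ ε₁ D : ℝ, 0 < δ ∧ 0 < ε₁ ∧ ∀ M : ℝ, ∃ κ : ℝ, 0 < κ ∧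
      ∀ (g : Fin 3 → Fin 3 → L), ‖g - g₀‖ ≤ ε₁ → Sm g → ∀ (u v : ℕ → Fin 2 → L), OL g u v →
        ∀ (n w : ℕ) (t s : L), w ≠ 0 → Near ξ ξ' η η' u v n t s → ‖t‖ ≤ δ → ‖s‖ ≤ δ →
          D ≤ ‖Rr g (u 0) (v 0) (u w) (v w)‖ → ‖Rr g (u 0) (v 0) (u w) (v w)‖ ≤ M →
          ∀ τ : L, ‖τ - t‖ ≤ κ → ∀ ε : ℝ, 0 < ε →
            Big q {k | ∃ t' s', Near ξ ξ' η η' u v (n + k * w) t' s' ∧ ‖t' - τ‖ ≤ ε ∧
              ‖s'‖ ≤ δ₁}

/-- **Part P**: filling over `ℚ_[p]`. -/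
def StmtPadic : Prop := ∀ (p : ℕ) [Fact p.Prime], Fill ℚ_[p] p

/-- **Part R**: filling over `ℝ`. -/
def StmtReal : Prop := Fill ℝ 0

/-- **Part X**: large sets of different types meet. -/
def StmtCrt : Prop :=
  ∀ (V : Type) [Finite V] (q : V → ℕ), Function.Injective q → (∀ v, q v = 0 ∨ (q v).Prime) →
    ∀ A : V → Set ℕ, (∀ v, Big (q v) (A v)) → ∃ k, ∀ v, k ∈ A v

/-- **Part C1**: existence and continuity of finite chains. -/
def StmtChain : Prop :=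
  ∀ (L : Type) [NontriviallyNormedField L] (g : Fin 3 → Fin 3 → L) (u v : ℕ → Fin 2 → L)
    (n : ℕ), (∀ i, u i ≠ 0) → (∀ i, v i ≠ 0) →
    (∀ i < n, Step g (u i) (v i) (u (i + 1)) (v (i + 1))) → ∀ W ∈ 𝓝 (u n, v n),
    ∃ W₀ ∈ 𝓝 (g, u 0, v 0), ∀ (g' : Fin 3 → Fin 3 → L) (a b : Fin 2 → L), (g', a, b) ∈ W₀ →
      G g' a b = 0 →
      (∃ u' v' : ℕ → Fin 2 → L, u' 0 = a ∧ v' 0 = b ∧ (∀ i, u' i ≠ 0) ∧ (∀ i, v' i ≠ 0) ∧
        (∀ i < n, Step g' (u' i) (v' i) (u' (i + 1)) (v' (i + 1)))) ∧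
      ∀ u' v' : ℕ → Fin 2 → L, u' 0 = a → v' 0 = b →
        (∀ i < n, Step g' (u' i) (v' i) (u' (i + 1)) (v' (i + 1))) → (u' n, v' n) ∈ W

/-- **Part C2**: rescaling of chains. -/
def StmtScale : Prop :=
  ∀ (L : Type) [Field L] (g : Fin 3 → Fin 3 → L) (u v : ℕ → Fin 2 → L) (n : ℕ) (l a b : L),
    l ≠ 0 → a ≠ 0 → b ≠ 0 → (∀ i < n, Step g (u i) (v i) (u (i + 1)) (v (i + 1))) →
    ∃ α β : ℕ → L, α 0 = a ∧ β 0 = b ∧ (∀ i, α i ≠ 0) ∧ (∀ i, β i ≠ 0) ∧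
      ∀ i < n, Step (l • g) (α i • u i) (β i • v i) (α (i + 1) • u (i + 1))
        (β (i + 1) • v (i + 1))

/-- **Part K**: the third coordinate is a Lipschitz function of the first two.  Compare
`TriR.Vert.exists_boxS`. -/
def StmtChart : Prop :=
  ∀ (L : Type) [NontriviallyNormedField L] [ProperSpace L] (c : Fin 3 → Fin 3 → Fin 3 → L)
    (a₀ b₀ a₁ b₁ a₂ b₂ : Fin 2 → L), E c a₀ a₁ a₂ = 0 → PE c a₀ a₁ a₂ b₂ ≠ 0 →
    ∃ δ M : ℝ, 0 < δ ∧ 0 ≤ M ∧ ∀ x y z x' y' z' : L, ‖x‖ ≤ δ → ‖y‖ ≤ δ → ‖z‖ ≤ δ →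
      ‖x'‖ ≤ δ → ‖y'‖ ≤ δ → ‖z'‖ ≤ δ →
      E c (a₀ + x • b₀) (a₁ + y • b₁) (a₂ + z • b₂) = 0 →
      E c (a₀ + x' • b₀) (a₁ + y' • b₁) (a₂ + z' • b₂) = 0 →
      ‖z - z'‖ ≤ M * max ‖x - x'‖ ‖y - y'‖

end Pool.Agent.W279.TriS
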