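import Pool.Agent.W279.TriS.Main
import Pool.Agent.W279.TriR.Final

/-!
# The statement for the real place and several p-adic places (helper279)
-/

set_option autoImplicit false

namespace Pool.Agent.W279.TriS

open Pool.Agent.W279.Tri Pool.Agent.W279.TriR Filter Topology MvPolynomial

section real

variable {ι : Type} (p : ι → ℕ) [hp : ∀ i, Fact (p i).Prime]

/-- the completions -/
def Lc : Option ι → Type
  | none => ℝ
  | some i => ℚ_[p i]

noncomputable instance instNNF : ∀ v, NontriviallyNormedField (Lc p v)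
  | none => inferInstanceAs (NontriviallyNormedField ℝ)
  | some i => inferInstanceAs (NontriviallyNormedField ℚ_[p i])

instance instPS : ∀ v, ProperSpace (Lc p v)
  | none => inferInstanceAs (ProperSpace ℝ)
  | some i => inferInstanceAs (ProperSpace ℚ_[p i])

/-- the types -/
def qc : Option ι → ℕ
  | none => 0
  | some i => p i

lemma qc_inj (h : Function.Injective p) : Function.Injective (qc p) := by
  intro v w hvw
  match v, w with
  | none, none => rfl
  | none, some i => exact absurd hvw.symm (hp i).out.ne_zero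
  | some i, none => exact absurd hvw (hp i).out.ne_zero
  | some i, some j => exact congrArg some (h hvw)

lemma qc_prime : ∀ v, qc p v = 0 ∨ (qc p v).Prime
  | none => Or.inl rfl
  | some i => Or.inr (hp i).out

lemma fill_c (hr : StmtReal) (hpad : StmtPadic) : ∀ v, Fill (Lc p v) (qc p v)
  | none => hr
  | some i => hpad (p i)

variable {K : Type*} [Field K]

/-- the embeddings -/
noncomputable def emb (σ₀ : K →+* ℝ) (σ : ∀ i, K →+* ℚ_[p i]) : ∀ v, K →+* Lc p v
  | none => σ₀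
  | some i => σ i

end real

section final

variable {K : Type*} [Field K]

/-- evaluation over a place -/
lemma eval₂_cv {F : Type*} [Field F] (c : Fin 3 → Fin 3 → Fin 3 → K) (σ : K →+* F)
    (x : Fin 3 → Fin 2 → F) :
    eval₂ σ (fun r : Fin 3 × Fin 2 => x r.1 r.2) (form c) = E (cv c σ) (x 0) (x 1) (x 2) :=
  eval₂_form σ c _

/-- the rational points in the product over the real place and several p-adic places -/
def coneP {ι : Type} (p : ι → ℕ) [∀ i, Fact (p i).Prime] (F : MvPolynomial (Fin 3 × Fin 2) K)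
    (σ₀ : K →+* ℝ) (σ : ∀ i, K →+* ℚ_[p i]) :
    Set ((Fin 3 → Fin 2 → ℝ) × ∀ i, Fin 3 → Fin 2 → ℚ_[p i]) :=
  {x | ∃ y : Fin 3 → Fin 2 → K, (∀ j, y j ≠ 0) ∧ eval (fun r => y r.1 r.2) F = 0 ∧
    (∃ d : Fin 3 → ℝ, (∀ j, d j ≠ 0) ∧ x.1 = fun j a => d j * σ₀ (y j a)) ∧
    ∀ i, ∃ d : Fin 3 → ℚ_[p i], (∀ j, d j ≠ 0) ∧ x.2 i = fun j a => d j * σ i (y j a)}

/-- the rational points in the product over several p-adic places -/
def coneQ {ι : Type} (p : ι → ℕ) [∀ i, Fact (p i).Prime] (F : MvPolynomial (Fin 3 × Fin 2) K)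
    (σ : ∀ i, K →+* ℚ_[p i]) : Set (∀ i, Fin 3 → Fin 2 → ℚ_[p i]) :=
  {x | ∃ y : Fin 3 → Fin 2 → K, (∀ j, y j ≠ 0) ∧ eval (fun r => y r.1 r.2) F = 0 ∧
    ∀ i, ∃ d : Fin 3 → ℚ_[p i], (∀ j, d j ≠ 0) ∧ x i = fun j a => d j * σ i (y j a)}

/-- the conversion, with the real place -/
theorem of_intS {ι : Type} [Finite ι] (p : ι → ℕ) [∀ i, Fact (p i).Prime]
    {c : Fin 3 → Fin 3 → Fin 3 → K} (σ₀ : K →+* ℝ) (σ : ∀ i, K →+* ℚ_[p i])
    {P : Fin 3 → Fin 2 → K}
    (h : (fun v i j => emb p σ₀ σ v (P i j)) ∈ IntS c (emb p σ₀ σ)) :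
    ∃ U ∈ 𝓝 ((fun j a => σ₀ (P j a), fun i j a => σ i (P j a)) :
      (Fin 3 → Fin 2 → ℝ) × ∀ i, Fin 3 → Fin 2 → ℚ_[p i]), ∀ x ∈ U,
      eval₂ σ₀ (fun r => x.1 r.1 r.2) (form c) = 0 →
      (∀ i, eval₂ (σ i) (fun r => x.2 i r.1 r.2) (form c) = 0) →
      x ∈ closure (coneP p (form c) σ₀ σ) := by
  obtain ⟨W, hW, h⟩ := h
  have hW0 : W none ∈ 𝓝 (fun j a => σ₀ (P j a)) := hW none
  have hW1 : Set.pi Set.univ (fun i => W (some i)) ∈
      𝓝 (fun i j a => σ i (P j a) : ∀ i, Fin 3 → Fin 2 → ℚ_[p i]) :=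
    set_pi_mem_nhds Set.finite_univ fun i _ => hW (some i)
  refine ⟨W none ×ˢ Set.pi Set.univ (fun i => W (some i)), prod_mem_nhds hW0 hW1,
    fun x hx hx0 hx1 => ?_⟩
  let Q : ∀ v : Option ι, Fin 3 → Fin 2 → Lc p v := fun v => match v with
    | none => x.1
    | some i => x.2 i
  have hQ : Q ∈ ClS c (emb p σ₀ σ) := by
    refine h Q (fun v => ?_) (fun v => ?_)
    · match v with
      | none => exact hx.1
      | some i => exact hx.2 i (Set.mem_univ i)
    · match v with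
      | none =>
        have := eval₂_cv c σ₀ x.1
        rw [hx0] at this
        exact this.symm
      | some i =>
        have := eval₂_cv c (σ i) (x.2 i)
        rw [hx1 i] at this
        exact this.symm
  rw [mem_closure_iff_nhds]
  intro t ht
  obtain ⟨t₀, ht₀, t₁, ht₁, hsub⟩ := mem_nhds_prod_iff.1 (show t ∈ 𝓝 (x.1, x.2) from ht)
  rw [nhds_pi, Filter.mem_pi] at ht₁
  obtain ⟨I, -, s, hs, hsI⟩ := ht₁
  let N : ∀ v : Option ι, Set (Fin 3 → Fin 2 → Lc p v) := fun v => match v with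
    | none => t₀
    | some i => s i
  obtain ⟨Y, hY0, hYE, hYr⟩ := hQ N (fun v => by
    match v with
    | none => exact ht₀
    | some i => exact hs i)
  choose d hd hd' using hYr
  let d₀ : Fin 3 → ℝ := d none
  let d₁ : ∀ i, Fin 3 → ℚ_[p i] := fun i => d (some i)
  refine ⟨(fun j a => d₀ j * σ₀ (Y j a), fun i j a => d₁ i j * σ i (Y j a)),
    hsub (Set.mk_mem_prod (hd' none) (hsI fun i _ => hd' (some i))), Y, hY0, ?_, ?_, ?_⟩
  · rw [eval_form]
    exact hYE
  · exact ⟨d₀, hd none, rfl⟩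
  · exact fun i => ⟨d₁ i, hd (some i), rfl⟩

/-- the conversion, without the real place -/
theorem of_intS' {ι : Type} [Finite ι] (p : ι → ℕ) [∀ i, Fact (p i).Prime]
    {c : Fin 3 → Fin 3 → Fin 3 → K} (σ : ∀ i, K →+* ℚ_[p i])
    {P : Fin 3 → Fin 2 → K} (h : (fun v i j => σ v (P i j)) ∈ IntS c σ) :
    ∃ U ∈ 𝓝 (fun i j a => σ i (P j a) : ∀ i, Fin 3 → Fin 2 → ℚ_[p i]), ∀ x ∈ U,
      (∀ i, eval₂ (σ i) (fun r => x i r.1 r.2) (form c) = 0) →
      x ∈ closure (coneQ p (form c) σ) := by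
  obtain ⟨W, hW, h⟩ := h
  have hW1 : Set.pi Set.univ (fun i => W i) ∈
      𝓝 (fun i j a => σ i (P j a) : ∀ i, Fin 3 → Fin 2 → ℚ_[p i]) :=
    set_pi_mem_nhds Set.finite_univ fun i _ => hW i
  refine ⟨Set.pi Set.univ (fun i => W i), hW1, fun x hx hx1 => ?_⟩
  have hQ : x ∈ ClS c σ := by
    refine h x (fun v => hx v (Set.mem_univ v)) (fun v => ?_)
    have := eval₂_cv c (σ v) (x v)
    rw [hx1 v] at this
    exact this.symm
  rw [mem_closure_iff_nhds]
  intro t ht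
  rw [nhds_pi, Filter.mem_pi] at ht
  obtain ⟨I, -, s, hs, hsI⟩ := ht
  obtain ⟨Y, hY0, hYE, hYr⟩ := hQ s hs
  choose d hd hd' using hYr
  refine ⟨fun i j a => d i j * σ i (Y j a), hsI fun i _ => hd' i, Y, hY0, ?_, ?_⟩
  · rw [eval_form]
    exact hYE
  · exact fun i => ⟨d i, hd i, rfl⟩

/-- **the theorem in coordinates** -/
theorem final [NumberField K] (hrecur : StmtRecur) (hcrt : StmtCrt) (hchain : StmtChain)
    (hscale : StmtScale) (hchart : StmtChart) (hr : StmtReal) (hpad : StmtPadic)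
    {c : Fin 3 → Fin 3 → Fin 3 → K} (hn : Nice c) :
    ∃ T : Set (Fin 3 → Fin 2 → K), T.Finite ∧
      (∀ P ∈ T, (∀ j, P j ≠ 0) ∧ eval (fun r => P r.1 r.2) (form c) = 0) ∧
      ∀ P : Fin 3 → Fin 2 → K, (∀ j, P j ≠ 0) → eval (fun r => P r.1 r.2) (form c) = 0 →
        (∃ Q ∈ T, ∀ j, ∃ t : K, t ≠ 0 ∧ P j = t • Q j) ∨
        ∀ (ι : Type) [Finite ι] (p : ι → ℕ) [∀ i, Fact (p i).Prime], Function.Injective p →
          ∀ σ : ∀ i, K →+* ℚ_[p i],
            (∃ U ∈ 𝓝 (fun i j a => σ i (P j a) : ∀ i, Fin 3 → Fin 2 → ℚ_[p i]), ∀ x ∈ U,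
              (∀ i, eval₂ (σ i) (fun r => x i r.1 r.2) (form c) = 0) →
                x ∈ closure (coneQ p (form c) σ)) ∧
            ∀ σ₀ : K →+* ℝ,
              ∃ U ∈ 𝓝 ((fun j a => σ₀ (P j a), fun i j a => σ i (P j a)) :
                (Fin 3 → Fin 2 → ℝ) × ∀ i, Fin 3 → Fin 2 → ℚ_[p i]), ∀ x ∈ U,
                eval₂ σ₀ (fun r => x.1 r.1 r.2) (form c) = 0 →
                (∀ i, eval₂ (σ i) (fun r => x.2 i r.1 r.2) (form c) = 0) →
                  x ∈ closure (coneP p (form c) σ₀ σ) := by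
  obtain ⟨T, hT, hT1, hT2⟩ := exists_TH hn.n2 (badH0 hn) (badH1 hn)
  refine ⟨T, hT, fun P hP => ⟨(hT1 P hP).1, ?_⟩, fun P hP hE => ?_⟩
  · rw [eval_form]
    exact (hT1 P hP).2
  rw [eval_form] at hE
  by_cases hg : nrm (P 0) ∈ BadH c ∧ nrm (P 1) ∈ BadH (sw c)
  · left
    exact hT2 P hP hE hg.1 hg.2
  · right
    intro ι hι p hp hinj σ
    have : Fintype ι := Fintype.ofFinite ι
    constructor
    · apply of_intS'
      exact int_all (q := p) hrecur hcrt hchain hscale hchart (fun i => hpad (p i)) hinj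
        (fun i => Or.inr (hp i).out) hn hP hE hg
    · intro σ₀
      apply of_intS
      exact int_all (V := Option ι) (L := Lc p) (q := qc p) hrecur hcrt hchain hscale hchart
        (fill_c p hr hpad) (qc_inj p hinj) (qc_prime p) hn hP hE hg

end final

end Pool.Agent.W279.TriS
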