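import Pool.Agent.W279.TriS.Places

/-!
# Interior points of the closure (helper279)
-/

set_option autoImplicit false

namespace Pool.Agent.W279.TriS

open Pool.Agent.W279.Tri Filter Topology Height

lemma exists_max {V : Type} [Finite V] (f : V → ℝ) : ∃ M : ℝ, 0 ≤ M ∧ ∀ v, f v ≤ M := by
  cases isEmpty_or_nonempty V with
  | inl h => exact ⟨0, le_rfl, fun v => (h.false v).elim⟩
  | inr h =>
    obtain ⟨v₀, hv₀⟩ := Finite.exists_max f
    exact ⟨max 0 (f v₀), le_max_left _ _, fun v => (hv₀ v).trans (le_max_right _ _)⟩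

section ring

variable {R : Type*} [CommRing R]

lemma PE_fib (c : Fin 3 → Fin 3 → Fin 3 → R) (x y z e : Fin 2 → R) :
    PE c x y z e = Pv (fib c x) y z e := by
  unfold PE Pv
  rw [G_fib, G_fib, G_fib]

lemma PE_sw (c : Fin 3 → Fin 3 → Fin 3 → R) (x y z e : Fin 2 → R) :
    PE (sw c) y x z e = PE c x y z e := by
  unfold PE
  rw [E_sw, E_sw, E_sw]

lemma E_map {S : Type*} [CommRing S] (φ : R →+* S) (c : Fin 3 → Fin 3 → Fin 3 → R)
    (x y z : Fin 2 → R) :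
    E (fun i j k => φ (c i j k)) (fun a => φ (x a)) (fun a => φ (y a)) (fun a => φ (z a)) =
      φ (E c x y z) := by
  simp only [E, coef_map, mon_map, map_sum, map_mul]

lemma PE_map {S : Type*} [CommRing S] (φ : R →+* S) (c : Fin 3 → Fin 3 → Fin 3 → R)
    (x y z e : Fin 2 → R) :
    PE (fun i j k => φ (c i j k)) (fun a => φ (x a)) (fun a => φ (y a)) (fun a => φ (z a))
      (fun a => φ (e a)) = φ (PE c x y z e) := by
  unfold PE
  rw [map_sub, map_sub, ← E_map, ← E_map, ← E_map]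
  have : (fun a => φ (z a)) + (fun a => φ (e a)) = fun a => φ ((z + e) a) := by
    funext a
    simp
  rw [this]

end ring

variable {K : Type*} [Field K]

lemma br_ne_of_PE {c : Fin 3 → Fin 3 → Fin 3 → K} {x y z e : Fin 2 → K} (hz : z ≠ 0)
    (h0 : E c x y z = 0) (h : PE c x y z e ≠ 0) : br z e ≠ 0 := by
  intro hb
  apply h
  rcases eq_or_ne e 0 with rfl | he
  · have := E_smul c 1 1 0 x y (0 : Fin 2 → K)
    rw [one_smul, one_smul, zero_smul] at this
    unfold PE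
    rw [add_zero, h0, this]
    ring
  · obtain ⟨t, -, rfl⟩ := (br_eq_zero_iff hz he).1 hb
    have e1 : z + t • z = (1 + t) • z := by rw [add_smul, one_smul]
    have e2 := E_smul c 1 1 (1 + t) x y z
    have e3 := E_smul c 1 1 t x y z
    rw [one_smul, one_smul, h0, mul_zero] at e2 e3
    unfold PE
    rw [e1, e2, e3, h0]
    ring

lemma E_of_At {L : Type} [NontriviallyNormedField L] {c : Fin 3 → Fin 3 → Fin 3 → K}
    {σ : K →+* L} {X Y Z : Fin 2 → K} (h : E c X Y Z = 0) {a₀ b₀ a₁ b₁ a₂ b₂ : Fin 2 → L}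
    {x y z : L} (hX : At a₀ b₀ (fun i => σ (X i)) x) (hY : At a₁ b₁ (fun i => σ (Y i)) y)
    (hZ : At a₂ b₂ (fun i => σ (Z i)) z) :
    E (cv c σ) (a₀ + x • b₀) (a₁ + y • b₁) (a₂ + z • b₂) = 0 := by
  obtain ⟨p, hp, hpe⟩ := hX
  obtain ⟨q, hq, hqe⟩ := hY
  obtain ⟨r, hr, hre⟩ := hZ
  have e := E_map σ c X Y Z
  rw [h, map_zero, hpe, hqe, hre, E_smul] at e
  have : p ^ 2 * q ^ 2 * r ^ 2 ≠ 0 :=
    mul_ne_zero (mul_ne_zero (pow_ne_zero 2 hp) (pow_ne_zero 2 hq)) (pow_ne_zero 2 hr)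
  exact (mul_eq_zero.1 e).resolve_left this

lemma At.map_smul {L : Type} [NontriviallyNormedField L] {a b : Fin 2 → L} (σ : K →+* L)
    {w w' : Fin 2 → K} {t : L} (h : At a b (fun i => σ (w i)) t) {s : K} (hs : s ≠ 0)
    (hw : w = s • w') : At a b (fun i => σ (w' i)) t := by
  obtain ⟨p, hp, hpe⟩ := h
  refine ⟨(σ s)⁻¹ * p, mul_ne_zero (inv_ne_zero ((map_ne_zero σ).2 hs)) hp, ?_⟩
  rw [mul_smul, ← hpe]
  funext i
  have : σ s ≠ 0 := (map_ne_zero σ).2 hs
  rw [Pi.smul_apply, hw, Pi.smul_apply, smul_eq_mul, smul_eq_mul, map_mul]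
  field_simp

section places

variable {V : Type} {L : V → Type} [∀ v, NontriviallyNormedField (L v)]

/-- the closure of the rational points in the product over the places -/
def ClS (c : Fin 3 → Fin 3 → Fin 3 → K) (σ : ∀ v, K →+* L v) :
    Set (∀ v, Fin 3 → Fin 2 → L v) :=
  {Q | ∀ W : ∀ v, Set (Fin 3 → Fin 2 → L v), (∀ v, W v ∈ 𝓝 (Q v)) →
    ∃ Y, (∀ i, Y i ≠ 0) ∧ E c (Y 0) (Y 1) (Y 2) = 0 ∧ ∀ v, Reach (σ v) (W v) Y}

/-- the points with a neighbourhood, in the surface, contained in the closure -/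
def IntS (c : Fin 3 → Fin 3 → Fin 3 → K) (σ : ∀ v, K →+* L v) :
    Set (∀ v, Fin 3 → Fin 2 → L v) :=
  {P | ∃ W : ∀ v, Set (Fin 3 → Fin 2 → L v), (∀ v, W v ∈ 𝓝 (P v)) ∧
    ∀ Q, (∀ v, Q v ∈ W v) → (∀ v, E (cv c (σ v)) (Q v 0) (Q v 1) (Q v 2) = 0) → Q ∈ ClS c σ}

/-- only finitely many indices of an orbit are bad -/
lemma exists_index [NumberField K] {c : Fin 3 → Fin 3 → Fin 3 → K} (hb : (BadH c).Finite)
    {U : ℕ → Fin 2 → K} (hU0 : ∀ n, U n ≠ 0) (hU : ∀ n m, n ≠ m → br (U n) (U m) ≠ 0) :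
    ∃ s : ℕ, ∀ n, s ≤ n → GoodH c (nrm (U n)) := by
  have hinj : Function.Injective fun n => nrm (U n) := by
    intro n m hnm
    by_contra hne
    obtain ⟨s, hs, hs'⟩ := nrm_spec (hU0 n)
    obtain ⟨t, ht, ht'⟩ := nrm_spec (hU0 m)
    apply hU n m hne
    simp only at hnm
    rw [hs', ht', hnm, br_smul_left, br_smul_right, br_self, mul_zero, mul_zero]
  have hfin := hb.preimage hinj.injOn
  obtain ⟨s, hs⟩ := hfin.bddAbove
  refine ⟨s + 1, fun n hn => goodH_of_not_bad fun hbad => ?_⟩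
  have := hs (show n ∈ (fun n => nrm (U n)) ⁻¹' BadH c from hbad)
  omega

variable [Fintype V] [∀ v, ProperSpace (L v)] {q : V → ℕ}

/-- **interior points** -/
theorem interior [NumberField K] (hrecur : StmtRecur) (hcrt : StmtCrt) (hchain : StmtChain)
    (hscale : StmtScale) (hchart : StmtChart) (hF : ∀ v, Fill (L v) (q v))
    (hq : Function.Injective q) (hqp : ∀ v, q v = 0 ∨ (q v).Prime) (σ : ∀ v, K →+* L v)
    {c : Fin 3 → Fin 3 → Fin 3 → K} (hbad : (BadH (sw c)).Finite) {A B C e₂ : Fin 2 → K}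
    (hA : A ≠ 0) (hnsA : NS (fib c A)) {U W : ℕ → Fin 2 → K} (hO : OrbH (fib c A) U W)
    (hU : U 0 = B) (hW : W 0 = C) (hB : GoodH (sw c) B) (hAC : logHeight A ≤ logHeight C)
    (he₂ : PE c A B C e₂ ≠ 0) :
    (fun v i j => σ v ((![A, B, C] : Fin 3 → Fin 2 → K) i j)) ∈ IntS c σ := by
  classical
  have hB0 : B ≠ 0 := by rw [← hU]; exact hO.orb.hU 0
  have hC0 : C ≠ 0 := by rw [← hW]; exact hO.orb.hV 0
  have hE : E c A B C = 0 := by
    have := hO.orb.G_eq_zero 0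
    rwa [G_fib, hU, hW] at this
  obtain ⟨e₀, he₀⟩ := exists_br_ne hA
  obtain ⟨e₁, he₁⟩ := exists_br_ne hB0
  have hbr2 := br_ne_of_PE hC0 hE he₂
  -- the frames at the places
  have b0 : ∀ v, br (fun i => σ v (A i)) (fun i => σ v (e₀ i)) ≠ 0 := fun v => by
    rw [br_map]; exact (map_ne_zero (σ v)).2 he₀
  have b1 : ∀ v, br (fun i => σ v (B i)) (fun i => σ v (e₁ i)) ≠ 0 := fun v => by
    rw [br_map]; exact (map_ne_zero (σ v)).2 he₁
  have b2 : ∀ v, br (fun i => σ v (C i)) (fun i => σ v (e₂ i)) ≠ 0 := fun v => by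
    rw [br_map]; exact (map_ne_zero (σ v)).2 hbr2
  have hE' : ∀ v, E (cv c (σ v)) (fun i => σ v (A i)) (fun i => σ v (B i))
      (fun i => σ v (C i)) = 0 := fun v => by
    change E (fun i j k => σ v (c i j k)) _ _ _ = 0
    rw [E_map, hE, map_zero]
  have hPE' : ∀ v, PE (cv c (σ v)) (fun i => σ v (A i)) (fun i => σ v (B i))
      (fun i => σ v (C i)) (fun i => σ v (e₂ i)) ≠ 0 := fun v => by
    change PE (fun i j k => σ v (c i j k)) _ _ _ _ ≠ 0
    rw [PE_map]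
    exact (map_ne_zero (σ v)).2 he₂
  choose δc Mc hδc hMc hlip using fun v => hchart (L v) (cv c (σ v)) _
    (fun i => σ v (e₀ i)) _ (fun i => σ v (e₁ i)) _ (fun i => σ v (e₂ i)) (hE' v) (hPE' v)
  obtain ⟨δ₁, hδ₁, hδ₁'⟩ := exists_min δc hδc
  obtain ⟨M₀, hM₀, hM₀'⟩ := exists_max Mc
  -- the horizontal filling
  obtain ⟨U', W', hO', hU', hW'⟩ := hB.2 A C hA hC0 (by rw [E_sw]; exact hE)
  have hOd := hO'.dir (by rw [hU', hW']; exact hAC)
  obtain ⟨r, κ, hr, hκ, hhor⟩ := fill_unif (V := V) (L := L) (q := q) hrecur hcrt hchain hscale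
    hF hq hqp σ (c := sw c) (A := B) hB.1 hOd (fun v i => σ v (e₁ i)) (fun v i => σ v (e₀ i))
    (fun v i => σ v (e₂ i)) (fun v => by rw [hU']; exact b0 v) (fun v => by rw [hW']; exact b2 v)
    (fun v => by
      rw [hU', hW', ← PE_fib]
      change PE (sw (cv c (σ v))) _ _ _ _ ≠ 0
      rw [PE_sw]
      exact hPE' v) hδ₁
  -- the vertical filling
  obtain ⟨κ₁, hκ₁, hver⟩ := fill_one (V := V) (L := L) (q := q) hrecur hcrt hF hq hqp σ hnsA
    hO.orb (fun v i => σ v (e₁ i)) (fun v i => σ v (e₂ i)) (fun v => by rw [hU]; exact b1 v)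
    (fun v => by rw [hW]; exact b2 v) (fun v => by rw [hU, hW, ← PE_fib]; exact hPE' v) hδ₁
  -- the radius
  set ρ : ℝ := min (min (r / (2 * (M₀ + 1))) κ₁) (min κ (δ₁ / 2)) with hρ
  have hρ0 : 0 < ρ := by positivity
  have hρ1 : ρ * (2 * (M₀ + 1)) ≤ r := by
    rw [← le_div_iff₀ (by positivity)]
    exact (min_le_left _ _).trans (min_le_left _ _)
  have hρ2 : ρ ≤ κ₁ := (min_le_left _ _).trans (min_le_right _ _)
  have hρ3 : ρ ≤ κ := (min_le_right _ _).trans (min_le_left _ _)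
  have hρ4 : ρ ≤ δ₁ / 2 := (min_le_right _ _).trans (min_le_right _ _)
  set a : ∀ v, Fin 3 → Fin 2 → L v := fun v i j => σ v ((![A, B, C] : Fin 3 → Fin 2 → K) i j)
    with ha
  set b : ∀ v, Fin 3 → Fin 2 → L v := fun v i j => σ v ((![e₀, e₁, e₂] : Fin 3 → Fin 2 → K) i j)
    with hb
  have hab : ∀ v i, br (a v i) (b v i) ≠ 0 := by
    intro v i
    fin_cases i
    · exact b0 v
    · exact b1 v
    · exact b2 v
  refine ⟨fun v => {Q | ∀ i, ∃ p t : L v, p ≠ 0 ∧ Q i = p • (a v i + t • b v i) ∧ ‖t‖ ≤ ρ}, ?_, ?_⟩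
  · intro v
    refine Filter.eventually_all.2 fun i => ?_
    have h1 := chart_nhds (hab v i) hρ0
    have hc : Continuous fun Q : Fin 3 → Fin 2 → L v => Q i := continuous_apply i
    exact (hc.tendsto (fun i j => σ v ((![A, B, C] : Fin 3 → Fin 2 → K) i j))).eventually h1
  intro Q hQ hQE N hN
  choose p t hp hpt ht using hQ
  -- the accuracy
  have hacc : ∀ v, ∃ ε : ℝ, 0 < ε ∧ ∀ Y : Fin 3 → Fin 2 → K,
      (∀ i, ∃ x', At (a v i) (b v i) (fun j => σ v (Y i j)) x' ∧ ‖x' - t v i‖ ≤ ε) →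
        Reach (σ v) (N v) Y := by
    intro v
    refine reach_of_coord (p := p v) (hp v) ?_
    have e : (fun i => p v i • (a v i + t v i • b v i)) = Q v := by
      funext i
      exact (hpt v i).symm
    rw [e]
    exact hN v
  choose εv hεv hreach using hacc
  obtain ⟨ε₂, hε₂, hε₂'⟩ := exists_min εv hεv
  set ε₀ : ℝ := min ρ (ε₂ / (M₀ + 1)) with hε₀
  have hε00 : 0 < ε₀ := by positivity
  have hε01 : ε₀ ≤ ρ := min_le_left _ _
  have hε02 : ε₀ * (M₀ + 1) ≤ ε₂ := by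
    rw [← le_div_iff₀ (by positivity)]
    exact min_le_right _ _
  have hε03 : ε₀ ≤ ε₂ := by nlinarith
  have hε04 : M₀ * ε₀ ≤ ε₂ := by nlinarith
  -- vertical step
  obtain ⟨s₀, hs₀⟩ := exists_index hbad hO.orb.hU (fun n m h => hO.orb.hdu h)
  obtain ⟨k, hk, hk'⟩ := hver (fun v => t v 1) (fun v => (ht v 1).trans hρ2) ε₀ hε00 s₀
  choose y z hy hz hyt hzδ using hk'
  have hgood := hs₀ k hk
  obtain ⟨m, hm, hm'⟩ := nrm_spec (hO.orb.hU k)
  set Y : Fin 2 → K := nrm (U k) with hYdef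
  set Z : Fin 2 → K := W k with hZdef
  have hY0 : Y ≠ 0 := by
    intro h0
    apply hO.orb.hU k
    rw [hm', h0, smul_zero]
  have hZ0 : Z ≠ 0 := hO.orb.hV k
  have hEY : E c A Y Z = 0 := by
    have h1 := hO.orb.G_eq_zero k
    rw [G_fib, hm'] at h1
    have h2 := E_smul c 1 m 1 A Y Z
    rw [one_smul, one_smul, h1] at h2
    have h3 : (1 : K) ^ 2 * m ^ 2 * 1 ^ 2 ≠ 0 := by simp [hm]
    exact (mul_eq_zero.1 h2.symm).resolve_left h3
  have hyAt : ∀ v, At (fun i => σ v (B i)) (fun i => σ v (e₁ i)) (fun i => σ v (Y i)) (y v) := by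
    intro v
    have h1 := hy v
    rw [hU] at h1
    exact h1.map_smul (σ v) hm hm'
  have hzAt : ∀ v, At (fun i => σ v (C i)) (fun i => σ v (e₂ i)) (fun i => σ v (Z i)) (z v) := by
    intro v
    have h1 := hz v
    rw [hW] at h1
    exact h1
  have hynorm : ∀ v, ‖y v‖ ≤ 2 * ρ := by
    intro v
    have h1 := norm_add_le (y v - t v 1) (t v 1)
    rw [sub_add_cancel] at h1
    have := hyt v
    have := ht v 1
    linarith
  have hyδ : ∀ v, ‖y v‖ ≤ δc v := fun v => by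
    have := hynorm v
    have := hδ₁' v
    linarith
  have hznorm : ∀ v, ‖z v‖ ≤ r := by
    intro v
    have h1 := hlip v 0 (y v) (z v) 0 0 0 (by rw [norm_zero]; exact (hδc v).le) (hyδ v)
      ((hzδ v).trans (hδ₁' v)) (by rw [norm_zero]; exact (hδc v).le)
      (by rw [norm_zero]; exact (hδc v).le) (by rw [norm_zero]; exact (hδc v).le)
      (E_of_At hEY (At.zero _ _) (hyAt v) (hzAt v))
      (by rw [zero_smul, zero_smul, zero_smul, add_zero, add_zero, add_zero]; exact hE' v)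
    rw [sub_zero, sub_zero, sub_zero, norm_zero, max_eq_right (norm_nonneg _)] at h1
    have h2 := hynorm v
    have h3 := hM₀' v
    have h4 : Mc v * ‖y v‖ ≤ M₀ * (2 * ρ) := by
      apply mul_le_mul h3 h2 (norm_nonneg _) hM₀
    nlinarith
  have hyr : ∀ v, ‖y v‖ ≤ r := fun v => by
    have := hynorm v
    nlinarith
  -- horizontal step
  obtain ⟨U₂, W₂, hO₂, hU₂, hW₂⟩ := hgood.2 A Z hA hZ0 (by rw [E_sw]; exact hEY)
  have hmono : ∀ n, logHeight (W 0) ≤ logHeight (W n) := by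
    intro n
    induction n with
    | zero => exact le_rfl
    | succ n ih => exact ih.trans (hO.mono n)
  have hOd₂ := hO₂.dir (by
    rw [hU₂, hW₂]
    have := hmono k
    rw [hW] at this
    exact hAC.trans this)
  obtain ⟨k₂, hk₂⟩ := hhor Y A Z hgood.1 y (fun v => 0) z (fun v => hyAt v)
    (fun v => by rw [hU']; exact At.zero _ _) (fun v => by rw [hW']; exact hzAt v) hyr
    (fun v => by rw [norm_zero]; exact hr.le) hznorm U₂ W₂ hOd₂ hU₂ hW₂ (fun v => t v 0)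
    (fun v => by rw [sub_zero]; exact (ht v 0).trans hρ3) ε₀ hε00
  choose x z₂ hx hz₂ hxt hz₂δ using hk₂
  have hE₂ : E c (U₂ k₂) Y (W₂ k₂) = 0 := by
    have h1 := hO₂.orb.G_eq_zero k₂
    rw [G_fib, E_sw] at h1
    exact h1
  refine ⟨![U₂ k₂, Y, W₂ k₂], ?_, hE₂, fun v => hreach v _ fun i => ?_⟩
  · intro i
    fin_cases i
    · exact hO₂.orb.hU k₂
    · exact hY0
    · exact hO₂.orb.hV k₂
  have hxv : At (fun i => σ v (A i)) (fun i => σ v (e₀ i)) (fun i => σ v (U₂ k₂ i)) (x v) := by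
    have h1 := hx v
    rw [hU'] at h1
    exact h1
  have hzv : At (fun i => σ v (C i)) (fun i => σ v (e₂ i)) (fun i => σ v (W₂ k₂ i)) (z₂ v) := by
    have h1 := hz₂ v
    rw [hW'] at h1
    exact h1
  have hv1 := hε₂' v
  fin_cases i
  · exact ⟨x v, hxv, (hxt v).trans (by linarith)⟩
  · exact ⟨y v, hyAt v, (hyt v).trans (by linarith)⟩
  · refine ⟨z₂ v, hzv, ?_⟩
    have hQE' : E (cv c (σ v)) ((fun i => σ v (A i)) + t v 0 • fun i => σ v (e₀ i))
        ((fun i => σ v (B i)) + t v 1 • fun i => σ v (e₁ i))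
        ((fun i => σ v (C i)) + t v 2 • fun i => σ v (e₂ i)) = 0 := by
      have h1 := hQE v
      rw [hpt v 0, hpt v 1, hpt v 2, E_smul] at h1
      have : p v 0 ^ 2 * p v 1 ^ 2 * p v 2 ^ 2 ≠ 0 :=
        mul_ne_zero (mul_ne_zero (pow_ne_zero 2 (hp v 0)) (pow_ne_zero 2 (hp v 1)))
          (pow_ne_zero 2 (hp v 2))
      exact (mul_eq_zero.1 h1).resolve_left this
    have hδv := hδ₁' v
    have hxn : ‖x v‖ ≤ δc v := by
      have h1 := norm_add_le (x v - t v 0) (t v 0)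
      rw [sub_add_cancel] at h1
      have := hxt v
      have := ht v 0
      linarith
    have h1 := hlip v (x v) (y v) (z₂ v) (t v 0) (t v 1) (t v 2) hxn (hyδ v)
      ((hz₂δ v).trans hδv) (by have := ht v 0; linarith) (by have := ht v 1; linarith)
      (by have := ht v 2; linarith) (E_of_At hE₂ hxv (hyAt v) hzv) hQE'
    refine h1.trans ?_
    have h2 : max ‖x v - t v 0‖ ‖y v - t v 1‖ ≤ ε₀ := max_le (hxt v) (hyt v)
    calc Mc v * max ‖x v - t v 0‖ ‖y v - t v 1‖ ≤ M₀ * ε₀ :=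
          mul_le_mul (hM₀' v) h2 (le_max_of_le_left (norm_nonneg _)) hM₀
      _ ≤ ε₂ := hε04
      _ ≤ _ := hv1

end places

end Pool.Agent.W279.TriS
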