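import Pool.Agent.W279.TriS.Transport

/-!
# Every rational point outside a finite set is an interior point of the closure (helper279)
-/

set_option autoImplicit false

namespace Pool.Agent.W279.TriS

open Pool.Agent.W279.Tri Pool.Agent.W279.TriR Filter Topology Height

variable {K : Type*} [Field K]

/-- the second and the third variable exchanged -/
def tr3 {R : Type*} (c : Fin 3 → Fin 3 → Fin 3 → R) (i j k : Fin 3) : R := c i k j

section ring

variable {R : Type*} [CommRing R]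

lemma fib_tr3 (c : Fin 3 → Fin 3 → Fin 3 → R) (x : Fin 2 → R) :
    fib (tr3 c) x = fun j k => fib c x k j := by
  funext j k
  rfl

lemma E_tr3 (c : Fin 3 → Fin 3 → Fin 3 → R) (x y z : Fin 2 → R) :
    E (tr3 c) x z y = E c x y z := by
  rw [← G_fib, fib_tr3, ← G_swap, G_fib]

lemma sw_tr3 (c : Fin 3 → Fin 3 → Fin 3 → R) : sw (tr3 c) = rot c := by
  funext i j k
  rfl

end ring

lemma exists_PE {c : Fin 3 → Fin 3 → Fin 3 → K} {A u z z' : Fin 2 → K} (hz : z ≠ 0)
    (h : ∀ j, lf (fun j k => fib c A k j) u j = pr z z' j) (hne : br z z' ≠ 0) :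
    ∃ e, PE c A u z e ≠ 0 := by
  obtain ⟨e, he⟩ := exists_br_ne hz
  have h1 : ∀ w, E c A u w = br w z * br w z' := by
    intro w
    rw [← G_fib, G_swap, G_of_pr h]
  refine ⟨e, ?_⟩
  have h2 : PE c A u z e = -(br z e) * br z z' := by
    unfold PE
    rw [h1, h1, h1]
    simp only [br, Pi.add_apply]
    ring
  rw [h2]
  exact mul_ne_zero (neg_ne_zero.2 he) hne

section places

variable {V : Type} {L : V → Type} [∀ v, NontriviallyNormedField (L v)]
variable {c : Fin 3 → Fin 3 → Fin 3 → K} {σ : ∀ v, K →+* L v}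

lemma IntS.tr3 {A B C : Fin 2 → K}
    (h : (fun v i j => σ v ((![A, C, B] : Fin 3 → Fin 2 → K) i j)) ∈ IntS (tr3 c) σ) :
    (fun v i j => σ v ((![A, B, C] : Fin 3 → Fin 2 → K) i j)) ∈ IntS c σ := by
  refine IntS.perm (c' := TriS.tr3 c) (Equiv.swap 1 2) (fun Y => ?_) (fun v Y => ?_) ?_
  · have e0 : (Equiv.swap 1 2 : Equiv.Perm (Fin 3)) 0 = 0 := by decide
    have e1 : (Equiv.swap 1 2 : Equiv.Perm (Fin 3)) 1 = 2 := by decide
    have e2 : (Equiv.swap 1 2 : Equiv.Perm (Fin 3)) 2 = 1 := by decide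
    rw [e0, e1, e2, E_tr3]
  · have e0 : (Equiv.swap 1 2 : Equiv.Perm (Fin 3)) 0 = 0 := by decide
    have e1 : (Equiv.swap 1 2 : Equiv.Perm (Fin 3)) 1 = 2 := by decide
    have e2 : (Equiv.swap 1 2 : Equiv.Perm (Fin 3)) 2 = 1 := by decide
    rw [e0, e1, e2]
    exact E_tr3 (cv c (σ v)) _ _ _
  · have e : (fun (v : V) (i : Fin 3) (j : Fin 2) =>
        σ v ((![A, B, C] : Fin 3 → Fin 2 → K) (Equiv.swap (1 : Fin 3) 2 i) j)) =
        fun v i j => σ v ((![A, C, B] : Fin 3 → Fin 2 → K) i j) := by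
      funext v i j
      fin_cases i <;> rfl
    rw [e]
    exact h

lemma tr3_tr3 {R : Type*} (c : Fin 3 → Fin 3 → Fin 3 → R) : tr3 (tr3 c) = c := rfl

/-- the second involution -/
theorem IntS.flip' (hnc : NC (rot c)) {A Y Z Z' : Fin 2 → K} (hZ : Z ≠ 0) (hZ' : Z' ≠ 0)
    (hst : ∀ j, lf (fun j k => fib c A k j) Y j = pr Z Z' j)
    (h : (fun v i j => σ v ((![A, Y, Z'] : Fin 3 → Fin 2 → K) i j)) ∈ IntS c σ) :
    (fun v i j => σ v ((![A, Y, Z] : Fin 3 → Fin 2 → K) i j)) ∈ IntS c σ := by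
  apply IntS.tr3
  have h1 : (fun v i j => σ v ((![A, Z', Y] : Fin 3 → Fin 2 → K) i j)) ∈ IntS (TriS.tr3 c) σ :=
    IntS.tr3 (c := TriS.tr3 c) h
  exact IntS.flip (c := TriS.tr3 c) (by rw [sw_tr3]; exact hnc) hZ hZ'
    (by rw [fib_tr3]; exact hst) h1

/-- transport along an orbit -/
theorem IntS.orb (h1 : NC (sw c)) (h2 : NC (rot c)) {A : Fin 2 → K} {U W : ℕ → Fin 2 → K}
    (hO : Orb2 (fib c A) U W) (n : ℕ)
    (h : (fun v i j => σ v ((![A, U n, W n] : Fin 3 → Fin 2 → K) i j)) ∈ IntS c σ) :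
    (fun v i j => σ v ((![A, U 0, W 0] : Fin 3 → Fin 2 → K) i j)) ∈ IntS c σ := by
  induction n with
  | zero => exact h
  | succ n ih =>
    apply ih
    rcases hO with hO | hO
    · exact IntS.flip h1 (hO.hU n) (hO.hU (n + 1)) (hO.hu n)
        (IntS.flip' h2 (hO.hV n) (hO.hV (n + 1)) (hO.hv n) h)
    · exact IntS.flip' h2 (hO.hU n) (hO.hU (n + 1)) (hO.hu n)
        (IntS.flip h1 (hO.hV n) (hO.hV (n + 1)) (hO.hv n) h)

variable [Fintype V] [∀ v, ProperSpace (L v)] {q : V → ℕ}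

/-- the points on the good fibres -/
theorem int_of_good [NumberField K] (hrecur : StmtRecur) (hcrt : StmtCrt) (hchain : StmtChain)
    (hscale : StmtScale) (hchart : StmtChart) (hF : ∀ v, Fill (L v) (q v))
    (hq : Function.Injective q) (hqp : ∀ v, q v = 0 ∨ (q v).Prime)
    (h1 : NC (sw c)) (h2 : NC (rot c)) (hbad : (BadH (sw c)).Finite) {A B C : Fin 2 → K}
    (hA0 : A ≠ 0) (hA : GoodH c A) (hB : B ≠ 0) (hC : C ≠ 0) (hE : E c A B C = 0) :
    (fun v i j => σ v ((![A, B, C] : Fin 3 → Fin 2 → K) i j)) ∈ IntS c σ := by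
  obtain ⟨U, W, hO, hU, hW⟩ := hA.2 B C hB hC hE
  obtain ⟨s, hs⟩ := exists_index hbad hO.orb.hU (fun n m h => hO.orb.hdu h)
  obtain ⟨N, hN⟩ := hO.unb (logHeight A)
  set n := max s N + 1 with hn
  have hns : s ≤ n := by omega
  have hnN : N ≤ n := by omega
  rw [← hU, ← hW]
  apply IntS.orb h1 h2 hO.orb n
  obtain ⟨m, hm, hm'⟩ := nrm_spec (hO.orb.hU n)
  have hB0 : nrm (U n) ≠ 0 := by
    intro h0
    apply hO.orb.hU n
    rw [hm', h0, smul_zero]
  have hE' : E c A (nrm (U n)) (W n) = 0 := by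
    have h1 := hO.orb.G_eq_zero n
    rw [G_fib, hm'] at h1
    have h2 := E_smul c 1 m 1 A (nrm (U n)) (W n)
    rw [one_smul, one_smul, h1] at h2
    have h3 : (1 : K) ^ 2 * m ^ 2 * 1 ^ 2 ≠ 0 := by simp [hm]
    exact (mul_eq_zero.1 h2.symm).resolve_left h3
  obtain ⟨U', W', hO', hU', hW'⟩ := hA.2 (nrm (U n)) (W n) hB0 (hO.orb.hV n) hE'
  have hPE : ∃ e, PE c A (U n) (W n) e ≠ 0 := by
    rcases hO.orb with hO1 | hO1
    · have h5 := hO1.hv (max s N)
      refine exists_PE (z' := W (max s N)) (hO1.hV n) (fun j => ?_) (hO1.hdv _ _ (by omega))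
      rw [pr_comm]
      exact h5 j
    · exact exists_PE (z' := W (n + 1)) (hO1.hU n) (hO1.hu n) (hO1.hdu _ _ (by omega))
  obtain ⟨e, he⟩ := hPE
  have he' : PE c A (nrm (U n)) (W n) e ≠ 0 := by
    intro h0
    apply he
    unfold PE at h0 ⊢
    have h6 : ∀ w, E c A (U n) w = m ^ 2 * E c A (nrm (U n)) w := by
      intro w
      have h7 := E_smul c 1 m 1 A (nrm (U n)) w
      rw [one_smul, one_smul, ← hm'] at h7
      rw [h7]
      ring
    rw [h6, h6, h6]
    linear_combination m ^ 2 * h0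
  have hint := interior hrecur hcrt hchain hscale hchart hF hq hqp σ hbad hA0 hA.1 hO' hU' hW'
    (hs n hns) (hN n hnN) he'
  refine IntS.scale hint (fun v => ![1, σ v m, 1]) (fun v i => ?_) (fun v i => ?_)
  · fin_cases i
    · exact one_ne_zero
    · exact (map_ne_zero (σ v)).2 hm
    · exact one_ne_zero
  · fin_cases i
    · funext j
      change σ v (A j) = 1 * σ v (A j)
      rw [one_mul]
    · funext j
      change σ v (U n j) = σ v m * σ v (nrm (U n) j)
      rw [← map_mul]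
      congr 1
      exact congrFun hm' j
    · funext j
      change σ v (W n j) = 1 * σ v (W n j)
      rw [one_mul]

/-- the points whose first coordinate is not bad -/
theorem int_fst [NumberField K] (hrecur : StmtRecur) (hcrt : StmtCrt) (hchain : StmtChain)
    (hscale : StmtScale) (hchart : StmtChart) (hF : ∀ v, Fill (L v) (q v))
    (hq : Function.Injective q) (hqp : ∀ v, q v = 0 ∨ (q v).Prime)
    (h1 : NC (sw c)) (h2 : NC (rot c)) (hbad : (BadH (sw c)).Finite) {P : Fin 3 → Fin 2 → K}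
    (hP : ∀ i, P i ≠ 0) (hE : E c (P 0) (P 1) (P 2) = 0) (hg : nrm (P 0) ∉ BadH c) :
    (fun v i j => σ v (P i j)) ∈ IntS c σ := by
  obtain ⟨m, hm, hm'⟩ := nrm_spec (hP 0)
  have hA0 : nrm (P 0) ≠ 0 := by
    intro h0
    apply hP 0
    rw [hm', h0, smul_zero]
  have hE' : E c (nrm (P 0)) (P 1) (P 2) = 0 := by
    have h2 := E_smul c m 1 1 (nrm (P 0)) (P 1) (P 2)
    rw [one_smul, one_smul, ← hm', hE] at h2
    have h3 : m ^ 2 * (1 : K) ^ 2 * 1 ^ 2 ≠ 0 := by simp [hm]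
    exact (mul_eq_zero.1 h2.symm).resolve_left h3
  have hint := int_of_good (σ := σ) hrecur hcrt hchain hscale hchart hF hq hqp h1 h2 hbad hA0
    (goodH_of_not_bad hg) (hP 1) (hP 2) hE'
  refine IntS.scale hint (fun v => ![σ v m, 1, 1]) (fun v i => ?_) (fun v i => ?_)
  · fin_cases i
    · exact (map_ne_zero (σ v)).2 hm
    · exact one_ne_zero
    · exact one_ne_zero
  · fin_cases i
    · funext j
      change σ v (P 0 j) = σ v m * σ v (nrm (P 0) j)
      rw [← map_mul]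
      congr 1
      exact congrFun hm' j
    · funext j
      change σ v (P 1 j) = 1 * σ v (P 1 j)
      rw [one_mul]
    · funext j
      change σ v (P 2 j) = 1 * σ v (P 2 j)
      rw [one_mul]

/-- **every rational point outside a finite set is an interior point** -/
theorem int_all [NumberField K] (hrecur : StmtRecur) (hcrt : StmtCrt) (hchain : StmtChain)
    (hscale : StmtScale) (hchart : StmtChart) (hF : ∀ v, Fill (L v) (q v))
    (hq : Function.Injective q) (hqp : ∀ v, q v = 0 ∨ (q v).Prime) (hn : Nice c)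
    {P : Fin 3 → Fin 2 → K} (hP : ∀ i, P i ≠ 0) (hE : E c (P 0) (P 1) (P 2) = 0)
    (hg : ¬(nrm (P 0) ∈ BadH c ∧ nrm (P 1) ∈ BadH (sw c))) :
    (fun v i j => σ v (P i j)) ∈ IntS c σ := by
  by_cases h0 : nrm (P 0) ∈ BadH c
  · have h1 : nrm (P 1) ∉ BadH (sw c) := fun h => hg ⟨h0, h⟩
    have e0 : (Equiv.swap 0 1 : Equiv.Perm (Fin 3)) 0 = 1 := by decide
    have e1 : (Equiv.swap 0 1 : Equiv.Perm (Fin 3)) 1 = 0 := by decide
    have e2 : (Equiv.swap 0 1 : Equiv.Perm (Fin 3)) 2 = 2 := by decide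
    refine IntS.perm (c' := sw c) (Equiv.swap 0 1) (fun Y => ?_) (fun v Y => ?_) ?_
    · rw [e0, e1, e2, E_sw]
    · rw [e0, e1, e2]
      exact E_sw (cv c (σ v)) _ _ _
    · exact int_fst (c := sw c) (P := fun i => P (Equiv.swap (0 : Fin 3) 1 i)) hrecur hcrt hchain
        hscale hchart hF hq hqp hn.n0 (NC_rot_sw hn.n2) (badH0 hn) (fun i => hP _)
        (by rw [e0, e1, e2, E_sw]; exact hE) (by rw [e0]; exact h1)
  · exact int_fst hrecur hcrt hchain hscale hchart hF hq hqp hn.n1 hn.n2 (badH1 hn) hP hE h0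

end places

end Pool.Agent.W279.TriS
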