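import Pool.Agent.W279.TriS.Rnear

/-!
# Filling at several places (helper279)
-/

set_option autoImplicit false

namespace Pool.Agent.W279.TriS

open Pool.Agent.W279.Tri Filter Topology

lemma exists_min {V : Type} [Finite V] (f : V → ℝ) (hf : ∀ v, 0 < f v) :
    ∃ κ : ℝ, 0 < κ ∧ ∀ v, κ ≤ f v := by
  classical
  cases isEmpty_or_nonempty V with
  | inl h => exact ⟨1, one_pos, fun v => (h.false v).elim⟩
  | inr h =>
    obtain ⟨v₀, hv₀⟩ := Finite.exists_min f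
    exact ⟨f v₀, hf v₀, hv₀⟩

section chart

variable {K : Type*} [Field K] {L : Type} [NontriviallyNormedField L]

/-- the coordinates of the vectors near `a` -/
lemma chart_nhds {a b : Fin 2 → L} (hb : br a b ≠ 0) {r : ℝ} (hr : 0 < r) :
    ∀ᶠ w : Fin 2 → L in 𝓝 a, ∃ p t : L, p ≠ 0 ∧ w = p • (a + t • b) ∧ ‖t‖ ≤ r := by
  have c1 : Continuous fun w : Fin 2 → L => br w b / br a b := by
    simp only [br]; fun_prop
  have c2 : Continuous fun w : Fin 2 → L => br a w / br a b := by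
    simp only [br]; fun_prop
  have e1 : br a b / br a b ≠ 0 := by rw [div_self hb]; exact one_ne_zero
  have h1 := c1.continuousAt.eventually_ne (x := a) e1
  have h2 : ∀ᶠ w : Fin 2 → L in 𝓝 a, ‖(br a w / br a b) / (br w b / br a b)‖ < r := by
    refine (c2.continuousAt.div c1.continuousAt e1).norm.eventually_lt continuousAt_const ?_
    simp only [Pi.div_apply, br_self, zero_div, norm_zero]
    exact hr
  filter_upwards [h1, h2] with w hw1 hw2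
  refine ⟨br w b / br a b, (br a w / br a b) / (br w b / br a b), hw1, ?_, hw2.le⟩
  rw [smul_add, smul_smul, mul_div_cancel₀ _ hw1]
  funext i
  simp only [Pi.add_apply, Pi.smul_apply, smul_eq_mul]
  rw [div_mul_eq_mul_div, div_mul_eq_mul_div, ← add_div, eq_div_iff hb]
  fin_cases i
  · simp only [br, Fin.zero_eta]; ring
  · simp only [br, Fin.mk_one]; ring

/-- close coordinates give a representative in the neighbourhood -/
lemma reach_of_coord {σ : K →+* L} {a b : Fin 3 → Fin 2 → L} {p x : Fin 3 → L}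
    (hp : ∀ i, p i ≠ 0) {N : Set (Fin 3 → Fin 2 → L)}
    (hN : N ∈ 𝓝 (fun i => p i • (a i + x i • b i))) :
    ∃ ε : ℝ, 0 < ε ∧ ∀ Y : Fin 3 → Fin 2 → K,
      (∀ i, ∃ x', At (a i) (b i) (fun j => σ (Y i j)) x' ∧ ‖x' - x i‖ ≤ ε) → Reach σ N Y := by
  have hc : Continuous fun (y : Fin 3 → L) (i : Fin 3) => p i • (a i + y i • b i) := by fun_prop
  have hpre := hc.continuousAt.preimage_mem_nhds (x := x) hN
  obtain ⟨ε, hε, hball⟩ := Metric.mem_nhds_iff.1 hpre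
  refine ⟨ε / 2, by linarith, fun Y hY => ?_⟩
  choose y hy1 hy2 using hY
  choose q hq0 hq using hy1
  have hmem : y ∈ Metric.ball x ε := by
    rw [Metric.mem_ball, dist_pi_lt_iff hε]
    intro i
    rw [dist_eq_norm]
    have := hy2 i
    linarith
  refine ⟨fun i => p i * (q i)⁻¹, fun i => mul_ne_zero (hp i) (inv_ne_zero (hq0 i)), ?_⟩
  have e : (fun i j => p i * (q i)⁻¹ * σ (Y i j)) = fun i => p i • (a i + y i • b i) := by
    funext i j
    have h1 := congrFun (hq i) j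
    rw [h1]
    simp only [Pi.smul_apply, Pi.add_apply, smul_eq_mul]
    field_simp [hq0 i]
  rw [e]
  exact hball hmem

end chart

section places

variable {K : Type*} [Field K] {V : Type} [Fintype V] {L : V → Type}
  [∀ v, NontriviallyNormedField (L v)] [∀ v, ProperSpace (L v)] {q : V → ℕ}

/-- the form at a place -/
def cv {F F' : Type*} [Field F] [CommRing F'] (c : Fin 3 → Fin 3 → Fin 3 → F) (σ : F →+* F')
    (i j k : Fin 3) : F' := σ (c i j k)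

/-- filling by one orbit -/
theorem fill_one (hrecur : StmtRecur) (hcrt : StmtCrt) (hF : ∀ v, Fill (L v) (q v))
    (hq : Function.Injective q) (hqp : ∀ v, q v = 0 ∨ (q v).Prime) (σ : ∀ v, K →+* L v)
    {c : Fin 3 → Fin 3 → Fin 3 → K} {A : Fin 2 → K} (hns : NS (fib c A))
    {U W : ℕ → Fin 2 → K} (hO : Orb2 (fib c A) U W) (ζ₁ ζ₂ : ∀ v, Fin 2 → L v)
    (h₁ : ∀ v, br (fun i => σ v (U 0 i)) (ζ₁ v) ≠ 0)
    (h₂ : ∀ v, br (fun i => σ v (W 0 i)) (ζ₂ v) ≠ 0)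
    (hd : ∀ v, Pv (fib (cv c (σ v)) (fun i => σ v (A i))) (fun i => σ v (U 0 i))
      (fun i => σ v (W 0 i)) (ζ₂ v) ≠ 0) {δ₁ : ℝ} (hδ₁ : 0 < δ₁) :
    ∃ κ : ℝ, 0 < κ ∧ ∀ τ : ∀ v, L v, (∀ v, ‖τ v‖ ≤ κ) → ∀ (ε : ℝ), 0 < ε → ∀ s₀ : ℕ,
      ∃ k, s₀ ≤ k ∧ ∀ v, ∃ y z : L v, At (fun i => σ v (U 0 i)) (ζ₁ v) (fun i => σ v (U k i)) y ∧
        At (fun i => σ v (W 0 i)) (ζ₂ v) (fun i => σ v (W k i)) z ∧ ‖y - τ v‖ ≤ ε ∧ ‖z‖ ≤ δ₁ := by
  have hOL : ∀ v, OL (fib (cv c (σ v)) (fun i => σ v (A i))) (fun n i => σ v (U n i))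
      (fun n i => σ v (W n i)) := by
    intro v
    have h1 := OL.of_orb2 hO (σ v)
    rw [fib_map2] at h1
    exact h1
  have hSm : ∀ v, Sm (fib (cv c (σ v)) (fun i => σ v (A i))) := by
    intro v
    have h1 := hns.sm (σ v)
    rw [fib_map2] at h1
    exact h1
  have hG : ∀ v, G (fib (cv c (σ v)) (fun i => σ v (A i))) (fun i => σ v (U 0 i))
      (fun i => σ v (W 0 i)) = 0 := fun v => (hOL v).G0 0
  choose δ ε₁ D hδ hε₁ hM using fun v => hF v _ _ (ζ₁ v) _ (ζ₂ v) (h₁ v) (h₂ v) (hG v) (hd v) δ₁ hδ₁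
  obtain ⟨w, hw, hwD⟩ := exists_large hrecur _ _ _ hOL hSm D
  choose κ hκ hfill using fun v => hM v
    (‖Rr (fib (cv c (σ v)) (fun i => σ v (A i))) (fun i => σ v (U 0 i))
      (fun i => σ v (W 0 i)) (fun i => σ v (U w i)) (fun i => σ v (W w i))‖)
  obtain ⟨κ₀, hκ₀, hκ₀'⟩ := exists_min κ hκ
  refine ⟨κ₀, hκ₀, fun τ hτ ε hε s₀ => ?_⟩
  have hbig := fun v => hfill v _ (by rw [sub_self, norm_zero]; exact (hε₁ v).le) (hSm v) _ _
    (hOL v) 0 w 0 0 hw ⟨At.zero _ _, At.zero _ _⟩ (by rw [norm_zero]; exact (hδ v).le)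
    (by rw [norm_zero]; exact (hδ v).le) (hwD v) le_rfl (τ v)
    (by rw [sub_zero]; exact (hτ v).trans (hκ₀' v)) ε hε
  obtain ⟨k, hk, hk'⟩ := crt_large hcrt hq hqp hbig s₀
  refine ⟨k * w, ?_, fun v => ?_⟩
  · have : 1 ≤ w := Nat.one_le_iff_ne_zero.2 hw
    nlinarith
  · obtain ⟨y, z, ⟨h3, h4⟩, h5, h6⟩ := hk' v
    rw [zero_add] at h3 h4
    exact ⟨y, z, h3, h4, h5, h6⟩

/-- uniform filling by the orbits through the points near a given point -/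
theorem fill_unif (hrecur : StmtRecur) (hcrt : StmtCrt) (hchain : StmtChain)
    (hscale : StmtScale) (hF : ∀ v, Fill (L v) (q v))
    (hq : Function.Injective q) (hqp : ∀ v, q v = 0 ∨ (q v).Prime) (σ : ∀ v, K →+* L v)
    {c : Fin 3 → Fin 3 → Fin 3 → K} {A : Fin 2 → K} (hns : NS (fib c A))
    {U W : ℕ → Fin 2 → K} (hO : Orb (fib c A) U W) (ζ₀ ζ₁ ζ₂ : ∀ v, Fin 2 → L v)
    (h₁ : ∀ v, br (fun i => σ v (U 0 i)) (ζ₁ v) ≠ 0)
    (h₂ : ∀ v, br (fun i => σ v (W 0 i)) (ζ₂ v) ≠ 0)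
    (hd : ∀ v, Pv (fib (cv c (σ v)) (fun i => σ v (A i))) (fun i => σ v (U 0 i))
      (fun i => σ v (W 0 i)) (ζ₂ v) ≠ 0) {δ₁ : ℝ} (hδ₁ : 0 < δ₁) :
    ∃ r κ : ℝ, 0 < r ∧ 0 < κ ∧ ∀ X Y Z : Fin 2 → K, NS (fib c X) → ∀ x y z : ∀ v, L v,
      (∀ v, At (fun i => σ v (A i)) (ζ₀ v) (fun i => σ v (X i)) (x v)) →
      (∀ v, At (fun i => σ v (U 0 i)) (ζ₁ v) (fun i => σ v (Y i)) (y v)) →
      (∀ v, At (fun i => σ v (W 0 i)) (ζ₂ v) (fun i => σ v (Z i)) (z v)) →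
      (∀ v, ‖x v‖ ≤ r) → (∀ v, ‖y v‖ ≤ r) → (∀ v, ‖z v‖ ≤ r) →
      ∀ U' W' : ℕ → Fin 2 → K, Orb (fib c X) U' W' → U' 0 = Y → W' 0 = Z →
      ∀ τ : ∀ v, L v, (∀ v, ‖τ v - y v‖ ≤ κ) → ∀ (ε : ℝ), 0 < ε →
      ∃ k, ∀ v, ∃ y' z' : L v, At (fun i => σ v (U 0 i)) (ζ₁ v) (fun i => σ v (U' k i)) y' ∧
        At (fun i => σ v (W 0 i)) (ζ₂ v) (fun i => σ v (W' k i)) z' ∧ ‖y' - τ v‖ ≤ ε ∧
        ‖z'‖ ≤ δ₁ := by
  have hOL : ∀ v, OL (fib (cv c (σ v)) (fun i => σ v (A i))) (fun n i => σ v (U n i))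
      (fun n i => σ v (W n i)) := by
    intro v
    have h1 := OL.of_orb hO (σ v)
    rw [fib_map2] at h1
    exact h1
  have hSm : ∀ v, Sm (fib (cv c (σ v)) (fun i => σ v (A i))) := by
    intro v
    have h1 := hns.sm (σ v)
    rw [fib_map2] at h1
    exact h1
  have hG : ∀ v, G (fib (cv c (σ v)) (fun i => σ v (A i))) (fun i => σ v (U 0 i))
      (fun i => σ v (W 0 i)) = 0 := fun v => (hOL v).G0 0
  choose δ ε₁ D hδ hε₁ hM using fun v => hF v _ _ (ζ₁ v) _ (ζ₂ v) (h₁ v) (h₂ v) (hG v) (hd v) δ₁ hδ₁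
  obtain ⟨w, hw, hwD⟩ := exists_large hrecur _ _ _ hOL hSm (fun v => D v + 1)
  choose κ hκ hfill using fun v => hM v
    (‖Rr (fib (cv c (σ v)) (fun i => σ v (A i))) (fun i => σ v (U 0 i))
      (fun i => σ v (W 0 i)) (fun i => σ v (U w i)) (fun i => σ v (W w i))‖ + 1)
  choose r₁ hr₁ hnear using fun v => rnear hchain hscale (σ v) hO hw (ζ₀ v) (ζ₁ v) (ζ₂ v)
  have hform : ∀ v, ∃ r : ℝ, 0 < r ∧ ∀ x : L v, ‖x‖ ≤ r →
      ‖fib (cv c (σ v)) ((fun i => σ v (A i)) + x • ζ₀ v) -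
        fib (cv c (σ v)) (fun i => σ v (A i))‖ ≤ ε₁ v := by
    intro v
    have hW : {p : (Fin 3 → Fin 3 → L v) × (Fin 2 → L v) × (Fin 2 → L v) |
        ‖p.1 - fib (cv c (σ v)) (fun i => σ v (A i))‖ < ε₁ v} ∈
        𝓝 (fib (cv c (σ v)) (fun i => σ v (A i)), (0 : Fin 2 → L v), (0 : Fin 2 → L v)) := by
      have hcc : Continuous fun p : (Fin 3 → Fin 3 → L v) × (Fin 2 → L v) × (Fin 2 → L v) =>
          ‖p.1 - fib (cv c (σ v)) (fun i => σ v (A i))‖ := by fun_prop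
      refine hcc.continuousAt.eventually_lt continuousAt_const ?_
      rw [sub_self, norm_zero]
      exact hε₁ v
    obtain ⟨r, hr, h⟩ := exists_radius (cv c (σ v)) _ (ζ₀ v) 0 0 0 0 hW
    refine ⟨r, hr, fun x hx => ?_⟩
    exact (h x 0 0 hx (by rw [norm_zero]; exact hr.le) (by rw [norm_zero]; exact hr.le)).le
  choose r₂ hr₂ hform using hform
  obtain ⟨κ₀, hκ₀, hκ₀'⟩ := exists_min κ hκ
  obtain ⟨r, hr, hr'⟩ := exists_min (fun v => min (min (r₁ v) (r₂ v)) (δ v))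
    (fun v => lt_min (lt_min (hr₁ v) (hr₂ v)) (hδ v))
  refine ⟨r, κ₀, hr, hκ₀, ?_⟩
  intro X Y Z hnsX x y z hX hY hZ hx hy hz U' W' hO' hU' hW' τ hτ ε hε
  have hbig : ∀ v, Big (q v) {k | ∃ t' s', Near (fun i => σ v (U 0 i)) (ζ₁ v)
      (fun i => σ v (W 0 i)) (ζ₂ v) (fun n i => σ v (U' n i)) (fun n i => σ v (W' n i))
      (0 + k * w) t' s' ∧ ‖t' - τ v‖ ≤ ε ∧ ‖s'‖ ≤ δ₁} := by
    intro v
    have hrv := hr' v
    have hrv1 : r ≤ r₁ v := hrv.trans ((min_le_left _ _).trans (min_le_left _ _))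
    have hrv2 : r ≤ r₂ v := hrv.trans ((min_le_left _ _).trans (min_le_right _ _))
    have hrv3 : r ≤ δ v := hrv.trans (min_le_right _ _)
    obtain ⟨p, hp, hpX⟩ := hX v
    have hp2 : p ^ 2 ≠ 0 := pow_ne_zero 2 hp
    have hform' : (fun j k => σ v (fib c X j k)) =
        p ^ 2 • fib (cv c (σ v)) ((fun i => σ v (A i)) + x v • ζ₀ v) := by
      rw [fib_map2, hpX, fib_smul]
      rfl
    have hOL' : OL (fib (cv c (σ v)) ((fun i => σ v (A i)) + x v • ζ₀ v))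
        (fun n i => σ v (U' n i)) (fun n i => σ v (W' n i)) := by
      have h1 := OL.of_orb hO' (σ v)
      rw [hform'] at h1
      exact h1.of_smul hp2
    have hSm' : Sm (fib (cv c (σ v)) ((fun i => σ v (A i)) + x v • ζ₀ v)) := by
      have h1 := hnsX.sm (σ v)
      rw [hform'] at h1
      exact h1.smul hp2
    have hR := hnear v X Y Z (x v) (y v) (z v) (hX v) (hY v) (hZ v) ((hx v).trans hrv1)
      ((hy v).trans hrv1) ((hz v).trans hrv1) U' W' hO' hU' hW'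
    rw [abs_le] at hR
    refine hfill v _ (hform v (x v) ((hx v).trans hrv2)) hSm' _ _ hOL' 0 w (y v) (z v) hw ⟨?_, ?_⟩
      ((hy v).trans hrv3) ((hz v).trans hrv3) ?_ ?_ (τ v) ((hτ v).trans (hκ₀' v)) ε hε
    · change At (fun i => σ v (U 0 i)) (ζ₁ v) (fun i => σ v (U' 0 i)) (y v)
      rw [hU']; exact hY v
    · change At (fun i => σ v (W 0 i)) (ζ₂ v) (fun i => σ v (W' 0 i)) (z v)
      rw [hW']; exact hZ v
    · have h1 := hR.1
      have h2 := hwD v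
      change _ ≤ ‖Rr (fib (cv c (σ v)) ((fun i => σ v (A i)) + x v • ζ₀ v)) (fun i => σ v (U' 0 i))
            (fun i => σ v (W' 0 i)) (fun i => σ v (U' w i)) (fun i => σ v (W' w i))‖
      change _ ≤ ‖Rr (fib (cv c (σ v)) ((fun i => σ v (A i)) + x v • ζ₀ v)) (fun i => σ v (U' 0 i))
            (fun i => σ v (W' 0 i)) (fun i => σ v (U' w i)) (fun i => σ v (W' w i))‖ -
          ‖Rr (fib (cv c (σ v)) (fun i => σ v (A i))) (fun i => σ v (U 0 i))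
            (fun i => σ v (W 0 i)) (fun i => σ v (U w i)) (fun i => σ v (W w i))‖ at h1
      linarith
    · have h1 := hR.2
      change ‖Rr (fib (cv c (σ v)) ((fun i => σ v (A i)) + x v • ζ₀ v)) (fun i => σ v (U' 0 i))
            (fun i => σ v (W' 0 i)) (fun i => σ v (U' w i)) (fun i => σ v (W' w i))‖ ≤ _
      change ‖Rr (fib (cv c (σ v)) ((fun i => σ v (A i)) + x v • ζ₀ v)) (fun i => σ v (U' 0 i))
            (fun i => σ v (W' 0 i)) (fun i => σ v (U' w i)) (fun i => σ v (W' w i))‖ -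
          ‖Rr (fib (cv c (σ v)) (fun i => σ v (A i))) (fun i => σ v (U 0 i))
            (fun i => σ v (W 0 i)) (fun i => σ v (U w i)) (fun i => σ v (W w i))‖ ≤ 1 at h1
      linarith
  obtain ⟨k, -, hk'⟩ := crt_large hcrt hq hqp hbig 0
  refine ⟨k * w, fun v => ?_⟩
  obtain ⟨y', z', ⟨h3, h4⟩, h5, h6⟩ := hk' v
  rw [zero_add] at h3 h4
  exact ⟨y', z', h3, h4, h5, h6⟩

end places

end Pool.Agent.W279.TriS
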