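import Pool.Agent.W279.TriS.Basic

/-!
# The invariant of the w-th translate is a continuous function of the point (helper279)
-/

set_option autoImplicit false

namespace Pool.Agent.W279.TriS

open Pool.Agent.W279.Tri Filter Topology

variable {K : Type*} [Field K] {L : Type} [NontriviallyNormedField L]

lemma continuous_fib (c : Fin 3 → Fin 3 → Fin 3 → L) {T : Type*} [TopologicalSpace T]
    {f : T → Fin 2 → L} (hf : Continuous f) : Continuous fun t => fib c (f t) := by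
  refine continuous_pi fun j => continuous_pi fun k => ?_
  simp only [fib, mon, Fin.sum_univ_three, Matrix.cons_val_zero, Matrix.cons_val_one,
    Matrix.cons_val]
  fun_prop

/-- small coordinates give closeness -/
lemma exists_radius (c : Fin 3 → Fin 3 → Fin 3 → L) (a₀ b₀ a₁ b₁ a₂ b₂ : Fin 2 → L)
    {W : Set ((Fin 3 → Fin 3 → L) × (Fin 2 → L) × (Fin 2 → L))}
    (hW : W ∈ 𝓝 (fib c a₀, a₁, a₂)) :
    ∃ r : ℝ, 0 < r ∧ ∀ x y z : L, ‖x‖ ≤ r → ‖y‖ ≤ r → ‖z‖ ≤ r →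
      (fib c (a₀ + x • b₀), a₁ + y • b₁, a₂ + z • b₂) ∈ W := by
  have hc : Continuous fun p : L × L × L =>
      (fib c (a₀ + p.1 • b₀), a₁ + p.2.1 • b₁, a₂ + p.2.2 • b₂) :=
    (continuous_fib c (by fun_prop)).prodMk ((by fun_prop : Continuous fun p : L × L × L =>
      a₁ + p.2.1 • b₁).prodMk (by fun_prop))
  have h0 : (fun p : L × L × L => (fib c (a₀ + p.1 • b₀), a₁ + p.2.1 • b₁, a₂ + p.2.2 • b₂)) ⁻¹' W
      ∈ 𝓝 (0 : L × L × L) := by
    apply hc.continuousAt.preimage_mem_nhds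
    simpa using hW
  obtain ⟨r, hr, hball⟩ := Metric.mem_nhds_iff.1 h0
  refine ⟨r / 2, by linarith, fun x y z hx hy hz => ?_⟩
  have : ((x, y, z) : L × L × L) ∈ Metric.ball 0 r := by
    rw [mem_ball_zero_iff, Prod.norm_def, Prod.norm_def]
    refine max_lt ?_ (max_lt ?_ ?_)
    · change ‖x‖ < r; linarith
    · change ‖y‖ < r; linarith
    · change ‖z‖ < r; linarith
  exact hball this

/-- the chain of an orbit over `K`, normalised at a place -/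
lemma exists_normal (hscale : StmtScale) {c : Fin 3 → Fin 3 → Fin 3 → K} (σ : K →+* L)
    {X : Fin 2 → K} {U V : ℕ → Fin 2 → K} {n : ℕ}
    (h : ∀ i < n, Step (fib c X) (U i) (V i) (U (i + 1)) (V (i + 1))) {ξ a b : Fin 2 → L}
    {p q s : L} (hp : p ≠ 0) (hq : q ≠ 0) (hs : s ≠ 0) (hX : (fun i => σ (X i)) = p • ξ)
    (hY : (fun i => σ (U 0 i)) = q • a) (hZ : (fun i => σ (V 0 i)) = s • b) :
    ∃ α β : ℕ → L, (∀ i, α i ≠ 0) ∧ (∀ i, β i ≠ 0) ∧ α 0 • (fun i => σ (U 0 i)) = a ∧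
      β 0 • (fun i => σ (V 0 i)) = b ∧ ∀ i < n, Step (fib (fun i j k => σ (c i j k)) ξ)
        (α i • fun j => σ (U i j)) (β i • fun j => σ (V i j)) (α (i + 1) • fun j => σ (U (i + 1) j))
        (β (i + 1) • fun j => σ (V (i + 1) j)) := by
  have hp2 : p ^ 2 ≠ 0 := pow_ne_zero 2 hp
  obtain ⟨α, β, h1, h2, h3, h4, h5⟩ := hscale L (fun j k => σ (fib c X j k))
    (fun i j => σ (U i j)) (fun i j => σ (V i j)) n (p ^ 2)⁻¹ q⁻¹ s⁻¹ (inv_ne_zero hp2)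
    (inv_ne_zero hq) (inv_ne_zero hs) (fun i hi => (h i hi).map σ)
  refine ⟨α, β, h3, h4, ?_, ?_, ?_⟩
  · rw [h1, hY, smul_smul, inv_mul_cancel₀ hq, one_smul]
  · rw [h2, hZ, smul_smul, inv_mul_cancel₀ hs, one_smul]
  · intro i hi
    have h6 := h5 i hi
    rw [fib_map2, hX, fib_smul, smul_smul, inv_mul_cancel₀ hp2, one_smul] at h6
    exact h6

/-- **continuity of the invariant of the `w`-th translate** -/
theorem rnear (hchain : StmtChain) (hscale : StmtScale) {c : Fin 3 → Fin 3 → Fin 3 → K}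
    (σ : K →+* L) {A : Fin 2 → K} {U V : ℕ → Fin 2 → K} (hO : Orb (fib c A) U V) {w : ℕ}
    (hw : w ≠ 0) (ζ₀ ζ₁ ζ₂ : Fin 2 → L) :
    ∃ r : ℝ, 0 < r ∧ ∀ (X Y Z : Fin 2 → K) (x y z : L), At (fun i => σ (A i)) ζ₀ (fun i => σ (X i)) x →
      At (fun i => σ (U 0 i)) ζ₁ (fun i => σ (Y i)) y →
      At (fun i => σ (V 0 i)) ζ₂ (fun i => σ (Z i)) z → ‖x‖ ≤ r → ‖y‖ ≤ r → ‖z‖ ≤ r →
      ∀ U' V' : ℕ → Fin 2 → K, Orb (fib c X) U' V' → U' 0 = Y → V' 0 = Z →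
        |‖Rr (fib (fun i j k => σ (c i j k)) ((fun i => σ (A i)) + x • ζ₀)) (fun i => σ (U' 0 i))
            (fun i => σ (V' 0 i)) (fun i => σ (U' w i)) (fun i => σ (V' w i))‖ -
          ‖Rr (fib (fun i j k => σ (c i j k)) (fun i => σ (A i))) (fun i => σ (U 0 i))
            (fun i => σ (V 0 i)) (fun i => σ (U w i)) (fun i => σ (V w i))‖| ≤ 1 := by
  set cL : Fin 3 → Fin 3 → Fin 3 → L := fun i j k => σ (c i j k) with hcL
  set u : ℕ → Fin 2 → L := fun n i => σ (U n i) with hu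
  set v : ℕ → Fin 2 → L := fun n i => σ (V n i) with hv
  set α₀ : Fin 2 → L := fun i => σ (A i) with hα
  have hbu : br (u 0) (u w) ≠ 0 := by
    rw [hu]
    change br (fun i => σ (U 0 i)) (fun i => σ (U w i)) ≠ 0
    rw [br_map]
    exact (map_ne_zero σ).2 (hO.hdu 0 w (Ne.symm hw))
  have hbv : br (v 0) (v w) ≠ 0 := by
    rw [hv]
    change br (fun i => σ (V 0 i)) (fun i => σ (V w i)) ≠ 0
    rw [br_map]
    exact (map_ne_zero σ).2 (hO.hdv 0 w (Ne.symm hw))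
  set R₀ := ‖Rr (fib cL α₀) (u 0) (v 0) (u w) (v w)‖ with hR₀
  have hcont := (Rr_continuousAt (g := fib cL α₀) hbu hbv).norm
  have hset : {p : (Fin 3 → Fin 3 → L) × (Fin 2 → L) × (Fin 2 → L) × (Fin 2 → L) × (Fin 2 → L) |
      |‖Rr p.1 p.2.1 p.2.2.1 p.2.2.2.1 p.2.2.2.2‖ - R₀| < 1} ∈
      𝓝 (fib cL α₀, u 0, v 0, u w, v w) := by
    have := hcont.preimage_mem_nhds (Metric.ball_mem_nhds R₀ one_pos)
    filter_upwards [this] with p hp
    rw [Set.mem_preimage, Metric.mem_ball, Real.dist_eq] at hp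
    exact hp
  -- separate the variables
  have hmap : Continuous fun q : ((Fin 3 → Fin 3 → L) × (Fin 2 → L) × (Fin 2 → L)) ×
      ((Fin 2 → L) × (Fin 2 → L)) => (q.1.1, q.1.2.1, q.1.2.2, q.2.1, q.2.2) := by fun_prop
  have hset2 := hmap.continuousAt.preimage_mem_nhds
    (x := ((fib cL α₀, u 0, v 0), (u w, v w))) hset
  rw [nhds_prod_eq, Filter.mem_prod_iff] at hset2
  obtain ⟨W1, hW1, W2, hW2, hsub⟩ := hset2
  have hsteps : ∀ i < w, Step (fib cL α₀) (u i) (v i) (u (i + 1)) (v (i + 1)) := by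
    intro i _
    have h1 : Step (fib c A) (U i) (V i) (U (i + 1)) (V (i + 1)) := ⟨hO.hu i, hO.hv i⟩
    have h2 := h1.map σ
    rw [fib_map2] at h2
    exact h2
  obtain ⟨W0, hW0, hW0'⟩ := hchain L (fib cL α₀) u v w (fun i => map_ne σ (hO.hU i))
    (fun i => map_ne σ (hO.hV i)) hsteps W2 hW2
  obtain ⟨r, hr, hr'⟩ := exists_radius cL α₀ ζ₀ (u 0) ζ₁ (v 0) ζ₂ (Filter.inter_mem hW0 hW1)
  refine ⟨r, hr, ?_⟩
  intro X Y Z x y z hX hY hZ hx hy hz U' V' hO' hU' hV'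
  obtain ⟨h0, h1⟩ := hr' x y z hx hy hz
  obtain ⟨p, hp, hpX⟩ := hX
  obtain ⟨q, hq, hqY⟩ := hY
  obtain ⟨s, hs, hsZ⟩ := hZ
  obtain ⟨α, β, hα0, hβ0, e1, e2, hst⟩ := exists_normal hscale (c := c) σ (n := w)
    (fun i _ => ⟨hO'.hu i, hO'.hv i⟩) hp hq hs hpX (by rw [hU']; exact hqY)
    (by rw [hV']; exact hsZ)
  have hG : G (fib cL (α₀ + x • ζ₀)) (u 0 + y • ζ₁) (v 0 + z • ζ₂) = 0 := by
    rw [← e1, ← e2]
    have h3 := hst 0 (Nat.pos_of_ne_zero hw)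
    exact h3.G_eq.1
  have h4 := (hW0' _ _ _ h0 hG).2 (fun i => α i • fun j => σ (U' i j))
    (fun i => β i • fun j => σ (V' i j)) e1 e2 hst
  have h5 := hsub (Set.mk_mem_prod h1 h4)
  simp only [Set.mem_preimage, Set.mem_ofPred_eq] at h5
  rw [← e1, ← e2, Rr_smul _ _ _ _ _ (hα0 0) (hβ0 0) (hα0 w) (hβ0 w)] at h5
  exact h5.le

end Pool.Agent.W279.TriS
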