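import Pool.Agent.W279.TriS.Interior
import Pool.Agent.W493.SA.Chain

/-!
# The interior of the closure is invariant under the involutions (helper279)
-/

set_option autoImplicit false

namespace Pool.Agent.W279.TriS

open Pool.Agent.W279.Tri Filter Topology Height
open Pool.Agent.W493.SA.Chain (Half half)

variable {K : Type*} [Field K]

lemma lf_smul {R : Type*} [CommRing R] (g : Fin 3 → Fin 3 → R) (a b : R) (v : Fin 2 → R)
    (j : Fin 3) : lf (a • g) (b • v) j = a * b ^ 2 * lf g v j := by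
  simp only [lf, mon_smul, Pi.smul_apply, smul_eq_mul, Finset.mul_sum]
  refine Finset.sum_congr rfl fun k _ => ?_
  ring

lemma pr_smul {R : Type*} [CommRing R] (a b : R) (u v : Fin 2 → R)
    (j : Fin 3) : pr (a • u) (b • v) j = a * b * pr u v j := by
  fin_cases j <;> simp [pr] <;> ring

section places

variable {V : Type} {L : V → Type} [∀ v, NontriviallyNormedField (L v)]
variable {c c' : Fin 3 → Fin 3 → Fin 3 → K} {σ : ∀ v, K →+* L v}

/-- permutation of the variables -/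
lemma IntS.perm (π : Equiv.Perm (Fin 3))
    (hK : ∀ Y : Fin 3 → Fin 2 → K, E c' (Y (π 0)) (Y (π 1)) (Y (π 2)) = E c (Y 0) (Y 1) (Y 2))
    (hL : ∀ v (Y : Fin 3 → Fin 2 → L v),
      E (cv c' (σ v)) (Y (π 0)) (Y (π 1)) (Y (π 2)) = E (cv c (σ v)) (Y 0) (Y 1) (Y 2))
    {P : ∀ v, Fin 3 → Fin 2 → L v} (h : (fun v i => P v (π i)) ∈ IntS c' σ) : P ∈ IntS c σ := by
  obtain ⟨W', hW', h'⟩ := h
  refine ⟨fun v => {Q | (fun i => Q (π i)) ∈ W' v}, fun v => ?_, fun Q hQ hE => ?_⟩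
  · have hc : Continuous fun Q : Fin 3 → Fin 2 → L v => fun i => Q (π i) := by fun_prop
    exact hc.continuousAt.preimage_mem_nhds (hW' v)
  intro N hN
  have hcl := h' (fun v i => Q v (π i)) hQ (fun v => by rw [hL]; exact hE v)
  obtain ⟨Y, hY0, hYE, hYr⟩ := hcl (fun v => {R | (fun i => R (π.symm i)) ∈ N v}) (fun v => by
    have hc : Continuous fun Q : Fin 3 → Fin 2 → L v => fun i => Q (π.symm i) := by fun_prop
    apply hc.continuousAt.preimage_mem_nhds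
    have e : (fun i => Q v (π (π.symm i))) = Q v := by
      funext i
      rw [Equiv.apply_symm_apply]
    rw [e]
    exact hN v)
  refine ⟨fun i => Y (π.symm i), fun i => hY0 _, ?_, fun v => ?_⟩
  · have := hK (fun i => Y (π.symm i))
    simp only [Equiv.symm_apply_apply] at this
    rw [← this]
    exact hYE
  · obtain ⟨r, hr, hr'⟩ := hYr v
    exact ⟨fun i => r (π.symm i), fun i => hr _, hr'⟩

/-- rescaling -/
lemma IntS.scale {P P' : ∀ v, Fin 3 → Fin 2 → L v} (h : P ∈ IntS c σ) (t : ∀ v, Fin 3 → L v)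
    (ht : ∀ v i, t v i ≠ 0) (hP : ∀ v i, P' v i = t v i • P v i) : P' ∈ IntS c σ := by
  obtain ⟨W, hW, h⟩ := h
  refine ⟨fun v => {Q | (fun i => (t v i)⁻¹ • Q i) ∈ W v}, fun v => ?_, fun Q hQ hE N hN => ?_⟩
  · have hc : Continuous fun Q : Fin 3 → Fin 2 → L v => fun i => (t v i)⁻¹ • Q i := by fun_prop
    apply hc.continuousAt.preimage_mem_nhds
    have e : (fun i => (t v i)⁻¹ • P' v i) = P v := by
      funext i
      rw [hP, smul_smul, inv_mul_cancel₀ (ht v i), one_smul]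
    rw [e]
    exact hW v
  obtain ⟨Y, hY0, hYE, hYr⟩ := h (fun v i => (t v i)⁻¹ • Q v i) hQ
    (fun v => by rw [E_smul, hE v, mul_zero]) (fun v => {R | (fun i => t v i • R i) ∈ N v})
    (fun v => by
      have hc : Continuous fun Q : Fin 3 → Fin 2 → L v => fun i => t v i • Q i := by fun_prop
      apply hc.continuousAt.preimage_mem_nhds
      have e : (fun i => t v i • ((t v i)⁻¹ • Q v i)) = Q v := by
        funext i
        rw [smul_smul, mul_inv_cancel₀ (ht v i), one_smul]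
      rw [e]
      exact hN v)
  refine ⟨Y, hY0, hYE, fun v => ?_⟩
  obtain ⟨r, hr, hr'⟩ := hYr v
  refine ⟨fun i => t v i * r i, fun i => mul_ne_zero (ht v i) (hr i), ?_⟩
  have e : (fun i a => t v i * r i * σ v (Y i a)) = fun i => t v i • fun a => r i * σ v (Y i a) := by
    funext i a
    rw [Pi.smul_apply, smul_eq_mul, mul_assoc]
  rw [e]
  exact hr'

/-- a neighbourhood of a product form -/
lemma exists_nbhd {F : Type} [NontriviallyNormedField F] (Q : Fin 3 → Fin 2 → F)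
    (y : Fin 2 → F) {N : Set (Fin 3 → Fin 2 → F)} (hN : N ∈ 𝓝 ![Q 0, y, Q 2]) :
    ∃ U₁ ∈ 𝓝 (Q 0, Q 2), ∃ U₂ ∈ 𝓝 y, ∀ a b d : Fin 2 → F, (a, d) ∈ U₁ → b ∈ U₂ →
      ![a, b, d] ∈ N := by
  have hc : Continuous fun p : ((Fin 2 → F) × (Fin 2 → F)) × (Fin 2 → F) =>
      (![p.1.1, p.2, p.1.2] : Fin 3 → Fin 2 → F) := by
    refine continuous_pi fun i => ?_
    fin_cases i
    · exact continuous_fst.comp continuous_fst
    · exact continuous_snd
    · exact continuous_snd.comp continuous_fst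
  have h1 := hc.continuousAt.preimage_mem_nhds (x := ((Q 0, Q 2), y)) hN
  obtain ⟨U₁, hU₁, U₂, hU₂, hsub⟩ := mem_nhds_prod_iff.1 h1
  exact ⟨U₁, hU₁, U₂, hU₂, fun a b d h h' => hsub (Set.mk_mem_prod h h')⟩

/-- the neighbourhood of the points whose other root is in a given set -/
lemma half_nhds {F : Type} [NontriviallyNormedField F] (C : Fin 3 → Fin 3 → Fin 3 → F)
    (Q : Fin 3 → Fin 2 → F) (y : Fin 2 → F) (h1 : Q 1 ≠ 0) (hy : y ≠ 0)
    (h : ∀ j, lf (fib C (Q 0)) (Q 2) j = pr (Q 1) y j) {U₁ : Set ((Fin 2 → F) × (Fin 2 → F))}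
    (hU₁ : U₁ ∈ 𝓝 (Q 0, Q 2)) {U₂ : Set (Fin 2 → F)} (hU₂ : U₂ ∈ 𝓝 y) :
    {R : Fin 3 → Fin 2 → F | (R 0, R 2) ∈ U₁ ∧ R 1 ≠ 0 ∧ Half U₂ (fib C (R 0), R 1, R 2)} ∈ 𝓝 Q := by
  have c0 : Continuous fun R : Fin 3 → Fin 2 → F => (R 0, R 2) := by fun_prop
  have c1 : Continuous fun R : Fin 3 → Fin 2 → F => R 1 := by fun_prop
  have c2 : Continuous fun R : Fin 3 → Fin 2 → F => (fib C (R 0), R 1, R 2) :=
    (continuous_fib C (by fun_prop)).prodMk (by fun_prop)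
  have e0 : ∀ᶠ R in 𝓝 Q, (R 0, R 2) ∈ U₁ := c0.continuousAt.preimage_mem_nhds hU₁
  have e1 : ∀ᶠ R in 𝓝 Q, R 1 ≠ 0 := c1.continuousAt.eventually_ne h1
  have e2 : ∀ᶠ R in 𝓝 Q, Half U₂ (fib C (R 0), R 1, R 2) :=
    c2.continuousAt.eventually (half h1 hy h hU₂)
  filter_upwards [e0, e1, e2] with R r0 r1 r2
  exact ⟨r0, r1, r2⟩

/-- the first involution -/
theorem IntS.flip (hnc : NC (sw c)) {A Y Y' Z : Fin 2 → K} (hY : Y ≠ 0)
    (hY' : Y' ≠ 0) (hst : ∀ j, lf (fib c A) Z j = pr Y Y' j)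
    (h : (fun v i j => σ v ((![A, Y', Z] : Fin 3 → Fin 2 → K) i j)) ∈ IntS c σ) :
    (fun v i j => σ v ((![A, Y, Z] : Fin 3 → Fin 2 → K) i j)) ∈ IntS c σ := by
  obtain ⟨W', hW', h'⟩ := h
  have hstv : ∀ v j, lf (fib (cv c (σ v)) (fun i => σ v (A i))) (fun i => σ v (Z i)) j =
      pr (fun i => σ v (Y i)) (fun i => σ v (Y' i)) j := by
    intro v j
    have : fib (cv c (σ v)) (fun i => σ v (A i)) = fun j k => σ v (fib c A j k) :=
      (fib_map2 (σ v) c A).symm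
    rw [this, lf_map, hst j, pr_map]
  have hex1 : ∀ v, ∃ U₁ ∈ 𝓝 ((fun i => σ v (A i)), (fun i => σ v (Z i))),
      ∃ U₂ ∈ 𝓝 (fun i => σ v (Y' i)), ∀ a b d : Fin 2 → L v, (a, d) ∈ U₁ → b ∈ U₂ →
        ![a, b, d] ∈ W' v := by
    intro v
    refine exists_nbhd (fun i j => σ v ((![A, Y', Z] : Fin 3 → Fin 2 → K) i j)) _ ?_
    have e : (![fun j => σ v (A j), fun j => σ v (Y' j), fun j => σ v (Z j)] :
        Fin 3 → Fin 2 → L v) = fun i j => σ v ((![A, Y', Z] : Fin 3 → Fin 2 → K) i j) := by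
      funext i j
      fin_cases i <;> rfl
    change W' v ∈ 𝓝 (![fun j => σ v (A j), fun j => σ v (Y' j), fun j => σ v (Z j)])
    rw [e]
    exact hW' v
  choose U₁ hU₁ U₂ hU₂ hU using hex1
  refine ⟨fun v => {R | (R 0, R 2) ∈ U₁ v ∧ R 1 ≠ 0 ∧
    Half (U₂ v) (fib (cv c (σ v)) (R 0), R 1, R 2)}, fun v => ?_, fun Q hQ hE N hN => ?_⟩
  · exact half_nhds (cv c (σ v)) (fun i j => σ v ((![A, Y, Z] : Fin 3 → Fin 2 → K) i j))
      (fun i => σ v (Y' i)) (map_ne (σ v) hY) (map_ne (σ v) hY') (hstv v) (hU₁ v) (hU₂ v)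
  -- the other root over the places
  have hex2 : ∀ v, ∃ x : Fin 2 → L v, x ≠ 0 ∧ x ∈ U₂ v ∧
      ∀ j, lf (fib (cv c (σ v)) (Q v 0)) (Q v 2) j = pr (Q v 1) x j := by
    intro v
    obtain ⟨x, hx0, hxU, hx, -⟩ := (hQ v).2.2 (by
      change G (fib (cv c (σ v)) (Q v 0)) (Q v 1) (Q v 2) = 0
      rw [G_fib]
      exact hE v)
    exact ⟨x, hx0, hxU, hx⟩
  choose x hx0 hxU hx using hex2
  have hE' : ∀ v, E (cv c (σ v)) (Q v 0) (x v) (Q v 2) = 0 := by
    intro v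
    rw [← G_fib, G_of_pr (hx v), br_self, mul_zero]
  have hcl := h' (fun v => ![Q v 0, x v, Q v 2]) (fun v => hU v _ _ _ (hQ v).1 (hxU v)) hE'
  -- the neighbourhoods
  have hex3 : ∀ v, ∃ U₃ ∈ 𝓝 (Q v 0, Q v 2), ∃ U₄ ∈ 𝓝 (Q v 1), ∀ a b d : Fin 2 → L v,
      (a, d) ∈ U₃ → b ∈ U₄ → ![a, b, d] ∈ N v := by
    intro v
    refine exists_nbhd (Q v) _ ?_
    have e : (![Q v 0, Q v 1, Q v 2] : Fin 3 → Fin 2 → L v) = Q v := by
      funext i
      fin_cases i <;> rfl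
    rw [e]
    exact hN v
  choose U₃ hU₃ U₄ hU₄ hUN using hex3
  obtain ⟨R, hR0, hRE, hRr⟩ := hcl (fun v => {R | (R 0, R 2) ∈ U₃ v ∧ R 1 ≠ 0 ∧
    Half (U₄ v) (fib (cv c (σ v)) (R 0), R 1, R 2)}) (fun v => by
      refine half_nhds (cv c (σ v)) ![Q v 0, x v, Q v 2] (Q v 1) (hx0 v) (hQ v).2.1 ?_ (hU₃ v)
        (hU₄ v)
      intro j
      rw [pr_comm]
      exact hx v j)
  have hG : G (fib c (R 0)) (R 1) (R 2) = 0 := by rw [G_fib]; exact hRE
  obtain ⟨y, hy0, hy⟩ := exists_other (hR0 1) (by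
    obtain ⟨j, hj⟩ := hnc.coef_ne (hR0 0) (hR0 2)
    exact ⟨j, by rwa [lf_fib]⟩) hG
  refine ⟨![R 0, y, R 2], ?_, ?_, fun v => ?_⟩
  · intro i
    fin_cases i
    · exact hR0 0
    · exact hy0
    · exact hR0 2
  · change E c (R 0) y (R 2) = 0
    rw [← G_fib, G_of_pr hy, br_self, mul_zero]
  · obtain ⟨r, hr, hr1, -, hr3⟩ := hRr v
    set S : Fin 3 → Fin 2 → L v := fun i a => r i * σ v (R i a) with hS
    have hSi : ∀ i, S i = r i • fun a => σ v (R i a) := fun i => rfl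
    have hfib : fib (cv c (σ v)) (S 0) = r 0 ^ 2 • fun j k => σ v (fib c (R 0) j k) := by
      rw [hSi, fib_smul]
      congr 1
      exact (fib_map2 (σ v) c (R 0)).symm
    have hSy : ∀ j, lf (fib (cv c (σ v)) (S 0)) (S 2) j =
        pr (S 1) ((r 0 ^ 2 * r 2 ^ 2 * (r 1)⁻¹) • fun a => σ v (y a)) j := by
      intro j
      rw [hfib, hSi 2, lf_smul, hSi 1, pr_smul, lf_map, hy j, pr_map]
      have := hr 1
      field_simp
    obtain ⟨z, -, hz, -, huniq⟩ := hr3 (by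
      change G (fib (cv c (σ v)) (S 0)) (S 1) (S 2) = 0
      rw [G_of_pr hSy, br_self, zero_mul])
    have hyz := huniq _ hSy
    refine ⟨![r 0, r 0 ^ 2 * r 2 ^ 2 * (r 1)⁻¹, r 2], ?_, ?_⟩
    · intro i
      fin_cases i
      · exact hr 0
      · exact mul_ne_zero (mul_ne_zero (pow_ne_zero 2 (hr 0)) (pow_ne_zero 2 (hr 2)))
          (inv_ne_zero (hr 1))
      · exact hr 2
    · have h5 := hUN v (S 0) ((r 0 ^ 2 * r 2 ^ 2 * (r 1)⁻¹) • fun a => σ v (y a)) (S 2) hr1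
        (by rw [hyz]; exact hz)
      have e : (fun i a => (![r 0, r 0 ^ 2 * r 2 ^ 2 * (r 1)⁻¹, r 2] : Fin 3 → L v) i *
          σ v ((![R 0, y, R 2] : Fin 3 → Fin 2 → K) i a)) =
          ![S 0, (r 0 ^ 2 * r 2 ^ 2 * (r 1)⁻¹) • fun a => σ v (y a), S 2] := by
        funext i a
        fin_cases i <;> rfl
      rw [e]
      exact h5

end places

end Pool.Agent.W279.TriS
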